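import Mathlib

set_option autoImplicit false

namespace Pool.Agent.Helper825.PA

variable {F : Type} [Group F]

/-- finite index and quotient of exponent a power of `p` -/
def PO (p : ℕ) (S : Subgroup F) : Prop := S.FiniteIndex ∧ ∃ k : ℕ, ∀ x : F, x ^ (p ^ k) ∈ S

/-- `φ` is additive on the subgroup `S` -/
def AddOn (S : Subgroup F) (φ : F → ℤ) : Prop := ∀ a ∈ S, ∀ b ∈ S, φ (a * b) = φ a + φ b

theorem AddOn.mono {S T : Subgroup F} {φ : F → ℤ} (h : AddOn S φ) (hT : T ≤ S) : AddOn T φ :=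
  fun a ha b hb => h a (hT ha) b (hT hb)

theorem AddOn.one {S : Subgroup F} {φ : F → ℤ} (h : AddOn S φ) : φ 1 = 0 := by
  have := h 1 S.one_mem 1 S.one_mem
  simp at this
  exact this

theorem AddOn.inv {S : Subgroup F} {φ : F → ℤ} (h : AddOn S φ) {a : F} (ha : a ∈ S) :
    φ a⁻¹ = - φ a := by
  have := h a ha a⁻¹ (S.inv_mem ha)
  rw [mul_inv_cancel, h.one] at this
  linarith

theorem AddOn.pow {S : Subgroup F} {φ : F → ℤ} (h : AddOn S φ) {a : F} (ha : a ∈ S) (n : ℕ) :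
    φ (a ^ n) = n * φ a := by
  induction n with
  | zero => simp [h.one]
  | succ n ih =>
    rw [pow_succ, h _ (S.pow_mem ha n) _ ha, ih]
    push_cast
    ring

theorem PO.mono {p : ℕ} {S T : Subgroup F} (h : PO p S) (hT : S ≤ T) : PO p T := by
  obtain ⟨h1, k, hk⟩ := h
  exact ⟨Subgroup.finiteIndex_of_le hT, k, fun x => hT (hk x)⟩

theorem PO.top (p : ℕ) : PO p (⊤ : Subgroup F) :=
  ⟨inferInstance, 0, fun _ => trivial⟩

theorem PO.inf {p : ℕ} {S T : Subgroup F} (hS : PO p S) (hT : PO p T) : PO p (S ⊓ T) := by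
  obtain ⟨h1, k, hk⟩ := hS
  obtain ⟨h2, l, hl⟩ := hT
  refine ⟨inferInstance, k + l, fun x => ⟨?_, ?_⟩⟩
  · rw [pow_add, pow_mul]
    exact S.pow_mem (hk x) _
  · rw [add_comm, pow_add, pow_mul]
    exact T.pow_mem (hl x) _

theorem PO.normalCore {p : ℕ} {S : Subgroup F} (hS : PO p S) : PO p S.normalCore := by
  obtain ⟨h1, k, hk⟩ := hS
  refine ⟨inferInstance, k, fun x g => ?_⟩
  have : g * x ^ p ^ k * g⁻¹ = (g * x * g⁻¹) ^ p ^ k := by
    rw [conj_pow]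
  rw [this]
  exact hk _

/-- the elements of `S` on which `φ` is divisible by `n` -/
def cut (S : Subgroup F) (φ : F → ℤ) (h : AddOn S φ) (n : ℤ) : Subgroup F where
  carrier := {s | s ∈ S ∧ n ∣ φ s}
  one_mem' := ⟨S.one_mem, by rw [h.one]; exact dvd_zero _⟩
  mul_mem' := fun {a b} ha hb => ⟨S.mul_mem ha.1 hb.1, by
    rw [h a ha.1 b hb.1]; exact dvd_add ha.2 hb.2⟩
  inv_mem' := fun {a} ha => ⟨S.inv_mem ha.1, by
    rw [h.inv ha.1]; exact (dvd_neg).2 ha.2⟩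

theorem mem_cut {S : Subgroup F} {φ : F → ℤ} {h : AddOn S φ} {n : ℤ} {x : F} :
    x ∈ cut S φ h n ↔ x ∈ S ∧ n ∣ φ x := Iff.rfl

theorem cut_le {S : Subgroup F} {φ : F → ℤ} (h : AddOn S φ) (n : ℤ) : cut S φ h n ≤ S :=
  fun _ hx => hx.1

/-- additive functions as homomorphisms -/
def AddOn.hom {S : Subgroup F} {φ : F → ℤ} (h : AddOn S φ) : S →* Multiplicative ℤ where
  toFun := fun x => Multiplicative.ofAdd (φ x)
  map_one' := by simp [h.one]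
  map_mul' := fun a b => by
    rw [← ofAdd_add]
    congr 1
    exact h a a.2 b b.2

theorem cut_PO {p : ℕ} (hp : 0 < p) {S : Subgroup F} {φ : F → ℤ} (h : AddOn S φ) (hS : PO p S)
    (N : ℕ) : PO p (cut S φ h ((p : ℤ) ^ N)) := by
  obtain ⟨h1, k, hk⟩ := hS
  constructor
  · have hpos : 0 < p ^ N := pow_pos hp N
    haveI : NeZero (p ^ N) := ⟨hpos.ne'⟩
    let f : S →* Multiplicative (ZMod (p ^ N)) :=
      (AddMonoidHom.toMultiplicative (Int.castAddHom (ZMod (p ^ N)))).comp h.hom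
    have hker : (cut S φ h ((p : ℤ) ^ N)).subgroupOf S = f.ker := by
      ext x
      rw [Subgroup.mem_subgroupOf, mem_cut, MonoidHom.mem_ker]
      have : f x = Multiplicative.ofAdd (((φ x : ℤ)) : ZMod (p ^ N)) := rfl
      rw [this, ofAdd_eq_one, ZMod.intCast_zmod_eq_zero_iff_dvd]
      push_cast
      exact ⟨fun hx => hx.2, fun hx => ⟨x.2, hx⟩⟩
    have hfin : ((cut S φ h ((p : ℤ) ^ N)).subgroupOf S).FiniteIndex := by
      rw [hker]
      infer_instance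
    refine ⟨?_⟩
    rw [← Subgroup.relIndex_mul_index (cut_le h _)]
    exact mul_ne_zero hfin.index_ne_zero h1.index_ne_zero
  · refine ⟨k + N, fun x => ⟨?_, ?_⟩⟩
    · rw [pow_add, pow_mul]
      exact S.pow_mem (hk x) _
    · rw [pow_add, pow_mul, h.pow (hk x)]
      push_cast
      exact dvd_mul_right _ _

/-- realizable functions at level `e` -/
def RZe (p : ℕ) (e : ℕ) (K : Subgroup F) (u : F → ℤ) : Prop :=
  ∃ (S : Subgroup F) (φ : F → ℤ), S ≤ K ∧ PO p S ∧ AddOn S φ ∧ (∀ x ∈ K, x ^ (p ^ e) ∈ S) ∧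
    ∀ x ∈ K, u x = φ (x ^ (p ^ e))

def RZ (p : ℕ) (K : Subgroup F) (u : F → ℤ) : Prop := ∃ e, RZe p e K u

theorem RZe.raise {p e : ℕ} (hp : 0 < p) {K : Subgroup F} {u : F → ℤ} (h : RZe p e K u) :
    RZe p (e + 1) K u := by
  obtain ⟨S, φ, hSK, hS, hφ, hx, hu⟩ := h
  have hp' : (p : ℤ) ≠ 0 := by exact_mod_cast hp.ne'
  have hpc := cut_PO hp hφ hS 1
  rw [pow_one] at hpc
  refine ⟨cut S φ hφ p, fun x => φ x / p, (cut_le _ _).trans hSK, hpc, ?_, ?_, ?_⟩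
  · intro a ha b hb
    change φ (a * b) / p = φ a / p + φ b / p
    rw [hφ a ha.1 b hb.1, Int.add_ediv_of_dvd_left ha.2]
  · intro x hxK
    rw [pow_succ, pow_mul]
    refine ⟨S.pow_mem (hx x hxK) _, ?_⟩
    rw [hφ.pow (hx x hxK)]
    exact dvd_mul_right _ _
  · intro x hxK
    change u x = φ (x ^ p ^ (e + 1)) / p
    rw [pow_succ, pow_mul, hφ.pow (hx x hxK), hu x hxK, Int.mul_ediv_cancel_left _ hp']

theorem RZe.raise_le {p e f : ℕ} (hp : 0 < p) {K : Subgroup F} {u : F → ℤ} (h : RZe p e K u)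
    (hf : e ≤ f) : RZe p f K u := by
  induction f, hf using Nat.le_induction with
  | base => exact h
  | succ n _ ih => exact ih.raise hp

theorem RZ.add {p : ℕ} (hp : 0 < p) {K : Subgroup F} {u v : F → ℤ} (hu : RZ p K u)
    (hv : RZ p K v) : RZ p K (fun x => u x + v x) := by
  obtain ⟨e, he⟩ := hu
  obtain ⟨f, hf⟩ := hv
  have he' := he.raise_le hp (le_max_left e f)
  have hf' := hf.raise_le hp (le_max_right e f)
  obtain ⟨S, φ, hSK, hS, hφ, hx, hu⟩ := he'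
  obtain ⟨T, ψ, hTK, hT, hψ, hy, hv⟩ := hf'
  refine ⟨max e f, S ⊓ T, fun x => φ x + ψ x, inf_le_left.trans hSK, hS.inf hT, ?_, ?_, ?_⟩
  · intro a ha b hb
    change φ (a * b) + ψ (a * b) = φ a + ψ a + (φ b + ψ b)
    rw [hφ a ha.1 b hb.1, hψ a ha.2 b hb.2]
    ring
  · exact fun x hxK => ⟨hx x hxK, hy x hxK⟩
  · intro x hxK
    change u x + v x = _
    rw [hu x hxK, hv x hxK]

theorem RZ.smul {p : ℕ} {K : Subgroup F} {u : F → ℤ} (c : ℤ) (hu : RZ p K u) :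
    RZ p K (fun x => c * u x) := by
  obtain ⟨e, S, φ, hSK, hS, hφ, hx, hu⟩ := hu
  refine ⟨e, S, fun x => c * φ x, hSK, hS, ?_, hx, ?_⟩
  · intro a ha b hb
    change c * φ (a * b) = c * φ a + c * φ b
    rw [hφ a ha b hb]
    ring
  · intro x hxK
    change c * u x = _
    rw [hu x hxK]

theorem RZ.congr {p : ℕ} {K : Subgroup F} {u v : F → ℤ} (hu : RZ p K u)
    (h : ∀ x ∈ K, v x = u x) : RZ p K v := by
  obtain ⟨e, S, φ, hSK, hS, hφ, hx, hu⟩ := hu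
  exact ⟨e, S, φ, hSK, hS, hφ, hx, fun x hxK => (h x hxK).trans (hu x hxK)⟩

theorem RZ.sub {p : ℕ} (hp : 0 < p) {K : Subgroup F} {u v : F → ℤ} (hu : RZ p K u)
    (hv : RZ p K v) : RZ p K (fun x => u x - v x) :=
  (hu.add hp (hv.smul (-1))).congr (fun x _ => by ring)

theorem RZ.of_addOn {p : ℕ} {K : Subgroup F} {u : F → ℤ} (hK : PO p K) (hu : AddOn K u) :
    RZ p K u :=
  ⟨0, K, u, le_rfl, hK, hu, fun x hx => by simpa using hx, fun x _ => by simp⟩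

theorem RZ.zero {p : ℕ} {K : Subgroup F} (hK : PO p K) : RZ p K (fun _ => 0) :=
  RZ.of_addOn hK (fun _ _ _ _ => by simp)

theorem RZ.mono {p : ℕ} {K L : Subgroup F} {u : F → ℤ} (hu : RZ p K u) (hL : PO p L)
    (hLK : L ≤ K) : RZ p L u := by
  obtain ⟨e, S, φ, hSK, hS, hφ, hx, hu⟩ := hu
  exact ⟨e, S ⊓ L, φ, inf_le_right, hS.inf hL, hφ.mono inf_le_left,
    fun x hxL => ⟨hx x (hLK hxL), L.pow_mem hxL _⟩, fun x hxL => hu x (hLK hxL)⟩

theorem RZ.pow {p : ℕ} {K : Subgroup F} {u : F → ℤ} (hu : RZ p K u) {x : F} (hx : x ∈ K)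
    (k : ℕ) : u (x ^ k) = k * u x := by
  obtain ⟨e, S, φ, hSK, hS, hφ, hy, hu⟩ := hu
  rw [hu _ (K.pow_mem hx k), hu x hx, pow_right_comm, hφ.pow (hy x hx)]

/-- continuity of realizable functions -/
theorem RZ.cont {p : ℕ} (hp : 0 < p) {K : Subgroup F} {u : F → ℤ} (hu : RZ p K u) (N : ℕ) :
    ∃ R : Subgroup F, R.Normal ∧ PO p R ∧ R ≤ K ∧
      ∀ x ∈ K, ∀ r ∈ R, ((p : ℤ) ^ N) ∣ u (x * r) - u x := by
  obtain ⟨e, S, φ, hSK, hS, hφ, hy, hu⟩ := hu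
  refine ⟨(cut S φ hφ ((p : ℤ) ^ N)).normalCore, inferInstance, (cut_PO hp hφ hS N).normalCore,
    (Subgroup.normalCore_le _).trans ((cut_le _ _).trans hSK), ?_⟩
  intro x hx r hr
  have hrc := Subgroup.normalCore_le _ hr
  have hrK : r ∈ K := hSK hrc.1
  rw [hu _ (K.mul_mem hx hrK), hu x hx]
  set R := (cut S φ hφ ((p : ℤ) ^ N)).normalCore with hR
  have hmem : (x ^ p ^ e)⁻¹ * (x * r) ^ p ^ e ∈ R := by
    rw [← QuotientGroup.eq]
    rw [QuotientGroup.mk_pow, QuotientGroup.mk_pow, QuotientGroup.mk_mul,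
      (QuotientGroup.eq_one_iff r).2 hr, mul_one]
  have hmc := Subgroup.normalCore_le _ hmem
  have : (x * r) ^ p ^ e = x ^ p ^ e * ((x ^ p ^ e)⁻¹ * (x * r) ^ p ^ e) := by group
  rw [this, hφ _ (hy x hx) _ hmc.1]
  have h2 := hmc.2
  have : φ (x ^ p ^ e) + φ ((x ^ p ^ e)⁻¹ * (x * r) ^ p ^ e) - φ (x ^ p ^ e)
    = φ ((x ^ p ^ e)⁻¹ * (x * r) ^ p ^ e) := by ring
  rw [this]
  exact h2

/-- extension lemma -/
theorem RZ.ext {p : ℕ} (hp : 0 < p) {K L : Subgroup F} (hLK : L ≤ K)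
    (hpow : ∀ x ∈ K, x ^ p ∈ L) {u : F → ℤ} (hu : RZ p L u)
    (hdiv : ∀ x ∈ K, x ∉ L → (p : ℤ) ∣ u (x ^ p)) :
    ∃ v : F → ℤ, RZ p K v ∧ ∀ x ∈ L, v x = u x := by
  obtain ⟨e, S, φ, hSL, hS, hφ, hy, hu⟩ := hu
  have hp' : (p : ℤ) ≠ 0 := by exact_mod_cast hp.ne'
  have hpc := cut_PO hp hφ hS 1
  rw [pow_one] at hpc
  have key : ∀ x ∈ K, x ^ p ^ (e + 1) ∈ S ∧ (p : ℤ) ∣ φ (x ^ p ^ (e + 1)) := by
    intro x hx
    by_cases hxL : x ∈ L
    · rw [pow_succ, pow_mul, hφ.pow (hy x hxL)]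
      exact ⟨S.pow_mem (hy x hxL) _, dvd_mul_right _ _⟩
    · have h1 := hdiv x hx hxL
      rw [hu _ (hpow x hx)] at h1
      rw [pow_succ', pow_mul]
      exact ⟨hy _ (hpow x hx), h1⟩
  refine ⟨fun x => φ (x ^ p ^ (e + 1)) / p, ⟨e + 1, cut S φ hφ p, fun x => φ x / p,
    (cut_le _ _).trans (hSL.trans hLK), hpc, ?_, key, fun x _ => rfl⟩, ?_⟩
  · intro a ha b hb
    change φ (a * b) / p = φ a / p + φ b / p
    rw [hφ a ha.1 b hb.1, Int.add_ediv_of_dvd_left ha.2]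
  · intro x hx
    change φ (x ^ p ^ (e + 1)) / p = _
    rw [pow_succ, pow_mul, hφ.pow (hy x hx), hu x hx, Int.mul_ediv_cancel_left _ hp']

end Pool.Agent.Helper825.PA
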