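import Mathlib
import Pool.Agent.Helper825.PA1

set_option autoImplicit false

namespace Pool.Agent.Helper825.PA

section W

variable {Γ C H : Type} [Group Γ] [IsFreeGroup Γ] [Group C] [Fintype C] [DecidableEq C]
  [CommGroup H]

/-- product of all coordinates in a wreath product -/
def prodHom (C H : Type) [Group C] [Fintype C] [CommGroup H] : ((C → H) ⋊[mulAutArrow] C) →* H where
  toFun := fun w => ∏ c, w.left c
  map_one' := by
    simp only [SemidirectProduct.one_left, Pi.one_apply, Finset.prod_const_one]
  map_mul' := fun a b => by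
    simp only [SemidirectProduct.mul_left]
    have : ∀ c, (a.left * (mulAutArrow a.right) b.left) c = a.left c * b.left (a.right⁻¹ * c) :=
      fun c => rfl
    simp only [this]
    rw [Finset.prod_mul_distrib]
    congr 1
    exact Equiv.prod_comp (Equiv.mulLeft a.right⁻¹) b.left

theorem crossed (σ : Γ →* C) (s : Γ →* H) :
    ∃ v : Γ → C → H, (∀ a b c, v (a * b) c = v a c * v b ((σ a)⁻¹ * c)) ∧
      ∀ a, ∏ c, v a c = s a := by
  let f : Γ →* ((C → H) ⋊[mulAutArrow] C) := IsFreeGroup.lift (fun g =>
    (⟨Pi.mulSingle 1 (s (IsFreeGroup.of g)), σ (IsFreeGroup.of g)⟩ : (C → H) ⋊[mulAutArrow] C))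
  have hright : ∀ x, (f x).right = σ x := by
    intro x
    have : (SemidirectProduct.rightHom.comp f) = σ := by
      apply IsFreeGroup.ext_hom
      intro a
      simp [f]
    rw [← this]
    rfl
  refine ⟨fun x => (f x).left, ?_, ?_⟩
  · intro a b c
    change (f (a * b)).left c = _
    rw [map_mul, SemidirectProduct.mul_left, ← hright a]
    rfl
  · intro a
    have : (prodHom C H).comp f = s := by
      apply IsFreeGroup.ext_hom
      intro g
      change ∏ c, (f (IsFreeGroup.of g)).left c = _
      have : (f (IsFreeGroup.of g)).left = Pi.mulSingle 1 (s (IsFreeGroup.of g)) := by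
        simp [f]
      rw [this]
      rw [Fintype.prod_eq_single 1]
      · simp
      · intro x hx
        simp [hx]
    rw [← this]
    rfl

end W

/-- crossed homomorphism on a subgroup of a free group, additive version -/
theorem crossed' {F : Type} [Group F] [IsFreeGroup F] (S : Subgroup F) (q : ℕ) [NeZero q]
    (σ : F → ZMod q) (hσ : ∀ a ∈ S, ∀ b ∈ S, σ (a * b) = σ a + σ b)
    (s : F → ℤ) (hs : AddOn S s) :
    ∃ v : F → ZMod q → ℤ,
      (∀ a ∈ S, ∀ b ∈ S, ∀ c, v (a * b) c = v a c + v b (c - σ a)) ∧
      ∀ a ∈ S, ∑ c, v a c = s a := by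
  classical
  have hσ1 : σ 1 = 0 := by
    have := hσ 1 S.one_mem 1 S.one_mem
    simp at this
    exact this
  let σ' : S →* Multiplicative (ZMod q) :=
    { toFun := fun x => Multiplicative.ofAdd (σ x)
      map_one' := by simp [hσ1]
      map_mul' := fun a b => by
        rw [← ofAdd_add]
        congr 1
        exact hσ a a.2 b b.2 }
  obtain ⟨v, hv, hsum⟩ := crossed σ' hs.hom
  refine ⟨fun x c => if h : x ∈ S then Multiplicative.toAdd (v ⟨x, h⟩ (Multiplicative.ofAdd c)) else 0,
    ?_, ?_⟩
  · intro a ha b hb c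
    have hab := S.mul_mem ha hb
    simp only [ha, hb, hab, dif_pos]
    have := hv ⟨a, ha⟩ ⟨b, hb⟩ (Multiplicative.ofAdd c)
    have e1 : (⟨a, ha⟩ : S) * ⟨b, hb⟩ = ⟨a * b, hab⟩ := rfl
    rw [e1] at this
    rw [this, toAdd_mul]
    congr 2
    change v ⟨b, hb⟩ ((Multiplicative.ofAdd (σ a))⁻¹ * Multiplicative.ofAdd c) = _
    congr 1
    rw [← ofAdd_neg, ← ofAdd_add]
    congr 1
    ring
  · intro a ha
    simp only [ha, dif_pos]
    have := hsum ⟨a, ha⟩
    have h2 := congrArg Multiplicative.toAdd this
    rw [toAdd_prod] at h2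
    exact (Fintype.sum_equiv Multiplicative.ofAdd _ _ (fun c => rfl)).trans h2

/-- transfer lemma -/
theorem transfer {F : Type} [Group F] [IsFreeGroup F] (S : Subgroup F) (q : ℕ) [NeZero q]
    (l : F → ℤ) (hl : AddOn S l) (φ : F → ℤ) (hφ : AddOn S φ) :
    ∃ ψ : F → ℤ, AddOn (cut S l hl q) ψ ∧
      ∀ r ∈ S, IsUnit ((l r : ℤ) : ZMod q) → ψ (r ^ q) = φ r := by
  obtain ⟨v, hv, hsum⟩ := crossed' S q (fun x => ((l x : ℤ) : ZMod q))
    (fun a ha b hb => by simp [hl a ha b hb]) φ hφ
  have hv1 : ∀ c, v 1 c = 0 := by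
    intro c
    have := hv 1 S.one_mem 1 S.one_mem c
    simp [hl.one] at this
    exact this
  refine ⟨fun x => v x 0, ?_, ?_⟩
  · intro a ha b hb
    have h0 : ((l a : ℤ) : ZMod q) = 0 := by
      rw [ZMod.intCast_zmod_eq_zero_iff_dvd]
      exact ha.2
    have := hv a ha.1 b hb.1 0
    rw [h0] at this
    simpa using this
  · intro r hr hu
    have hpow : ∀ n : ℕ, ∀ c, v (r ^ n) c = ∑ j ∈ Finset.range n, v r (c - j * (l r : ZMod q)) := by
      intro n
      induction n with
      | zero => intro c; simp [hv1]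
      | succ n ih =>
        intro c
        rw [pow_succ', hv r hr _ (S.pow_mem hr n), ih, Finset.sum_range_succ']
        rw [add_comm]
        congr 1
        · apply Finset.sum_congr rfl
          intro j _
          congr 1
          push_cast
          ring
        · simp
    change v (r ^ q) 0 = φ r
    rw [hpow, ← hsum r hr]
    obtain ⟨u, hu⟩ := hu
    rw [← hu]
    have h1 : ∑ j ∈ Finset.range q, v r (0 - (j : ZMod q) * u) = ∑ c : ZMod q, v r (0 - c * u) := by
      rw [← Fin.sum_univ_eq_sum_range (fun j => v r (0 - (j : ZMod q) * u)) q]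
      apply Fintype.sum_bijective (fun j : Fin q => ((j : ℕ) : ZMod q))
      · constructor
        · intro a b hab
          have := (ZMod.natCast_eq_natCast_iff' _ _ _).1 hab
          rw [Nat.mod_eq_of_lt a.2, Nat.mod_eq_of_lt b.2] at this
          exact Fin.ext this
        · intro c
          exact ⟨⟨c.val, ZMod.val_lt c⟩, by simp⟩
      · intro x
        rfl
    rw [h1]
    apply Fintype.sum_bijective (fun c : ZMod q => 0 - c * u)
    · constructor
      · intro a b hab
        have : a * u = b * u := by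
          have h2 : 0 - a * (u : ZMod q) = 0 - b * u := hab
          linear_combination -h2
        exact u.isUnit.mul_right_cancel this
      · intro c
        refine ⟨-c * ↑u⁻¹, ?_⟩
        simp
    · intro x
      rfl

end Pool.Agent.Helper825.PA
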