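import Mathlib
import Pool.Agent.Helper825.PA2

set_option autoImplicit false

namespace Pool.Agent.Helper825.PA

variable {F : Type} [Group F] [IsFreeGroup F]

theorem clock {p : ℕ} (hp : p.Prime) {K L : Subgroup F} (hLK : L ≤ K)
    (hpow : ∀ x ∈ K, x ^ p ∈ L) {g : F → ℤ} (hg : RZ p L g) {l : F → ℤ} (hl : AddOn L l)
    (hl0 : ∀ x ∈ K, x ∉ L → l (x ^ p) = 0) :
    ∃ u : F → ℤ, RZ p K u ∧ (∀ y ∈ L, ¬ (p : ℤ) ∣ l y → u y = g y) ∧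
      (∀ y ∈ L, (p : ℤ) ∣ l y → (p : ℤ) ∣ u y) ∧ ∀ x ∈ K, x ∉ L → (p : ℤ) ∣ u x := by
  obtain ⟨e, S, φ, hSL, hS, hφ, hy, hg⟩ := hg
  have hp0 : 0 < p := hp.pos
  have hpe : ((p : ℤ) ^ e) ≠ 0 := pow_ne_zero _ (by exact_mod_cast hp0.ne')
  have hlS : AddOn S l := hl.mono hSL
  set S' := cut S l hlS ((p : ℤ) ^ e) with hS'
  have hS'PO : PO p S' := cut_PO hp0 hlS hS e
  have hlam : AddOn S' (fun x => l x / (p : ℤ) ^ e) := by
    intro a ha b hb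
    change l (a * b) / _ = l a / _ + l b / _
    rw [hlS a ha.1 b hb.1, Int.add_ediv_of_dvd_left ha.2]
  have : NeZero (p ^ 2) := ⟨(pow_pos hp0 2).ne'⟩
  obtain ⟨ψ, hψ, hψ2⟩ := transfer S' (p ^ 2) (fun x => l x / (p : ℤ) ^ e) hlam φ
    (hφ.mono (cut_le _ _))
  have hcast : ((p ^ 2 : ℕ) : ℤ) = (p : ℤ) ^ 2 := by push_cast; rfl
  rw [hcast] at hψ
  set H := cut S' (fun x => l x / (p : ℤ) ^ e) hlam ((p : ℤ) ^ 2) with hH
  have hHPO : PO p H := cut_PO hp0 hlam hS'PO 2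
  -- facts on `L`
  have hr : ∀ y ∈ L, y ^ p ^ e ∈ S' ∧ l (y ^ p ^ e) / (p : ℤ) ^ e = l y := by
    intro y hyL
    have h1 : l (y ^ p ^ e) = (p : ℤ) ^ e * l y := by
      rw [hl.pow hyL]
      push_cast
      rfl
    refine ⟨⟨hy y hyL, ?_⟩, ?_⟩
    · rw [h1]; exact dvd_mul_right _ _
    · rw [h1, Int.mul_ediv_cancel_left _ hpe]
  have hpow2 : ∀ y : F, y ^ p ^ (e + 2) = (y ^ p ^ e) ^ p ^ 2 := by
    intro y
    rw [pow_add, pow_mul]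
  have hmemL : ∀ y ∈ L, y ^ p ^ (e + 2) ∈ H := by
    intro y hyL
    rw [hpow2]
    obtain ⟨h1, h2⟩ := hr y hyL
    refine ⟨S'.pow_mem h1 _, ?_⟩
    change (p : ℤ) ^ 2 ∣ l ((y ^ p ^ e) ^ p ^ 2) / (p : ℤ) ^ e
    have := hlam.pow h1 (p ^ 2)
    rw [this]
    push_cast
    exact dvd_mul_right _ _
  have hout : ∀ x ∈ K, x ∉ L → x ^ p ^ (e + 2) ∈ H ∧ (p : ℤ) ∣ ψ (x ^ p ^ (e + 2)) := by
    intro x hx hxL
    have hxp := hpow x hx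
    obtain ⟨h1, h2⟩ := hr _ hxp
    have h3 : (x ^ p) ^ p ^ e ∈ H := by
      refine ⟨h1, ?_⟩
      change (p : ℤ) ^ 2 ∣ l ((x ^ p) ^ p ^ e) / (p : ℤ) ^ e
      rw [h2, hl0 x hx hxL]
      exact dvd_zero _
    have h4 : x ^ p ^ (e + 2) = ((x ^ p) ^ p ^ e) ^ p := by
      rw [← pow_mul, ← pow_mul]
      congr 1
      ring
    rw [h4, hψ.pow h3]
    exact ⟨H.pow_mem h3 _, dvd_mul_right _ _⟩
  refine ⟨fun x => ψ (x ^ p ^ (e + 2)), ⟨e + 2, H, ψ, ?_, hHPO, hψ, ?_, fun x _ => rfl⟩, ?_, ?_, ?_⟩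
  · exact (cut_le _ _).trans ((cut_le _ _).trans (hSL.trans hLK))
  · intro x hx
    by_cases hxL : x ∈ L
    · exact hmemL x hxL
    · exact (hout x hx hxL).1
  · intro y hyL hnd
    change ψ (y ^ p ^ (e + 2)) = g y
    rw [hpow2, hψ2 _ (hr y hyL).1, hg y hyL]
    rw [(hr y hyL).2]
    have hcop : IsCoprime (l y) ((p ^ 2 : ℕ) : ℤ) := by
      rw [hcast]
      apply IsCoprime.pow_right
      exact ((Prime.coprime_iff_not_dvd (Nat.prime_iff_prime_int.1 hp)).2 hnd).symm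
    exact (ZMod.coe_int_isUnit_iff_isCoprime _ _).2 hcop.symm
  · intro y hyL hd
    change (p : ℤ) ∣ ψ (y ^ p ^ (e + 2))
    obtain ⟨h1, h2⟩ := hr y hyL
    have h3 : (y ^ p ^ e) ^ p ∈ H := by
      refine ⟨S'.pow_mem h1 _, ?_⟩
      have := hlam.pow h1 p
      change (p : ℤ) ^ 2 ∣ l ((y ^ p ^ e) ^ p) / (p : ℤ) ^ e
      rw [this, h2, pow_two]
      exact mul_dvd_mul_left _ hd
    have h4 : y ^ p ^ (e + 2) = ((y ^ p ^ e) ^ p) ^ p := by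
      rw [← pow_mul, ← pow_mul]
      congr 1
      ring
    rw [h4, hψ.pow h3]
    exact dvd_mul_right _ _
  · exact fun x hx hxL => (hout x hx hxL).2

end Pool.Agent.Helper825.PA
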