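import Mathlib
import Pool.Agent.Helper825.PA3

set_option autoImplicit false

namespace Pool.Agent.Helper825.PA

theorem exists_hom {Γ : Type} [Group Γ] {p : ℕ} (hp : p.Prime) (C : Subgroup Γ) (hC : PO p C)
    (hne : C ≠ ⊤) : ∃ f : Γ →* Multiplicative (ZMod p), C ≤ f.ker ∧ ∃ x, f x ≠ 1 := by
  have : Fact p.Prime := ⟨hp⟩
  obtain ⟨hfin, k, hk⟩ := hC.normalCore
  set N := C.normalCore with hN
  have hNC : N ≤ C := Subgroup.normalCore_le _
  have hfinQ : Finite (Γ ⧸ N) := inferInstance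
  have hpg : IsPGroup p (Γ ⧸ N) := by
    intro x
    obtain ⟨y, rfl⟩ := QuotientGroup.mk_surjective x
    refine ⟨k, ?_⟩
    rw [← QuotientGroup.mk_pow, QuotientGroup.eq_one_iff]
    exact hk y
  obtain ⟨n, hn⟩ := IsPGroup.iff_card.1 hpg
  set C' := C.map (QuotientGroup.mk' N) with hC'
  have hC'ne : C' ≠ ⊤ := by
    intro h
    apply hne
    rw [eq_top_iff]
    intro x _
    have : (QuotientGroup.mk' N x) ∈ C' := by rw [h]; trivial
    obtain ⟨c, hc, hcx⟩ := this
    have h1 : c⁻¹ * x ∈ N := QuotientGroup.eq.1 hcx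
    have : x = c * (c⁻¹ * x) := by group
    rw [this]
    exact C.mul_mem hc (hNC h1)
  obtain ⟨m, hm⟩ := IsPGroup.iff_card.1 (hpg.to_subgroup C')
  have hlt : m < n := by
    by_contra hcon
    have h1 : Nat.card (Γ ⧸ N) ≤ Nat.card C' := by
      rw [hn, hm]
      exact Nat.pow_le_pow_right hp.pos (not_lt.1 hcon)
    exact hC'ne (Subgroup.eq_top_of_le_card _ h1)
  obtain ⟨K, hK, hCK⟩ := Sylow.exists_subgroup_card_pow_prime_le (n := m) (m := n - 1) p
    (by rw [hn]; exact pow_dvd_pow _ (Nat.sub_le _ _)) C' hm (by omega)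
  have hKi : K.index = p := by
    have h1 := K.card_mul_index
    rw [hK, hn] at h1
    have h2 : p ^ n = p ^ (n - 1) * p := by
      rw [← pow_succ]; congr 1; omega
    rw [h2] at h1
    exact Nat.eq_of_mul_eq_mul_left (pow_pos hp.pos _) h1
  have hKn : K.Normal := by
    apply Subgroup.normal_of_index_eq_minFac_card
    rw [hn, hKi, Nat.pow_minFac (by omega)]
    exact (hp.minFac_eq).symm
  have hcardQ : Nat.card ((Γ ⧸ N) ⧸ K) = p := hKi
  have hcardZ : Nat.card (Multiplicative (ZMod p)) = p := by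
    rw [Nat.card_congr Multiplicative.toAdd]
    exact Nat.card_zmod p
  let e : ((Γ ⧸ N) ⧸ K) ≃* Multiplicative (ZMod p) := mulEquivOfPrimeCardEq hcardQ hcardZ
  refine ⟨(e.toMonoidHom.comp (QuotientGroup.mk' K)).comp (QuotientGroup.mk' N), ?_, ?_⟩
  · intro c hc
    rw [MonoidHom.mem_ker]
    change e (QuotientGroup.mk' K (QuotientGroup.mk' N c)) = 1
    have : QuotientGroup.mk' K (QuotientGroup.mk' N c) = 1 := by
      rw [QuotientGroup.mk'_apply, QuotientGroup.eq_one_iff]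
      exact hCK ⟨c, hc, rfl⟩
    rw [this, map_one]
  · by_contra hcon
    push Not at hcon
    have hKtop : K = ⊤ := by
      rw [eq_top_iff]
      intro x _
      obtain ⟨y, rfl⟩ := QuotientGroup.mk_surjective x
      have h1 := hcon y
      have h2 : QuotientGroup.mk' K (QuotientGroup.mk' N y) = 1 := by
        apply e.injective
        rw [map_one]
        exact h1
      rw [QuotientGroup.mk'_apply, QuotientGroup.eq_one_iff] at h2
      exact h2
    rw [hKtop, Subgroup.index_top] at hKi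
    exact hp.one_lt.ne hKi

/-- Maximal subgroup: for `C < K` there is an additive map of `K` to `ZMod p` killing `C`. -/
theorem exists_sigma {F : Type} [Group F] {p : ℕ} (hp : p.Prime) {C K : Subgroup F}
    (hC : PO p C) (hCK : C ≤ K) (hne : C ≠ K) :
    ∃ σ : F → ZMod p, (∀ a ∈ K, ∀ b ∈ K, σ (a * b) = σ a + σ b) ∧ (∀ c ∈ C, σ c = 0) ∧
      ∃ x ∈ K, σ x ≠ 0 := by
  classical
  have h1 : PO p (C.subgroupOf K) := by
    obtain ⟨hfin, k, hk⟩ := hC
    refine ⟨inferInstance, k, fun x => ?_⟩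
    rw [Subgroup.mem_subgroupOf]
    exact hk x
  have h2 : C.subgroupOf K ≠ ⊤ := by
    intro h
    apply hne
    apply le_antisymm hCK
    exact Subgroup.subgroupOf_eq_top.1 h
  obtain ⟨f, hf, x, hx⟩ := exists_hom hp _ h1 h2
  refine ⟨fun y => if h : y ∈ K then Multiplicative.toAdd (f ⟨y, h⟩) else 0, ?_, ?_, ?_⟩
  · intro a ha b hb
    simp only [ha, hb, K.mul_mem ha hb, dif_pos]
    rw [← toAdd_mul, ← map_mul]
    rfl
  · intro c hc
    simp only [hCK hc, dif_pos]
    have : f ⟨c, hCK hc⟩ = 1 := hf (by rw [Subgroup.mem_subgroupOf]; exact hc)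
    rw [this]
    rfl
  · refine ⟨x, x.2, ?_⟩
    simp only [x.2, dif_pos]
    intro h
    apply hx
    exact h

/-- the kernel of `σ` on `K` -/
def kerOn {F : Type} [Group F] {p : ℕ} (K : Subgroup F) (σ : F → ZMod p)
    (hσ : ∀ a ∈ K, ∀ b ∈ K, σ (a * b) = σ a + σ b) : Subgroup F where
  carrier := {x | x ∈ K ∧ σ x = 0}
  one_mem' := ⟨K.one_mem, by
    have := hσ 1 K.one_mem 1 K.one_mem
    simp at this
    exact this⟩
  mul_mem' := fun {a b} ha hb => ⟨K.mul_mem ha.1 hb.1, by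
    rw [hσ a ha.1 b hb.1, ha.2, hb.2, add_zero]⟩
  inv_mem' := fun {a} ha => ⟨K.inv_mem ha.1, by
    have h1 := hσ 1 K.one_mem 1 K.one_mem
    simp at h1
    have := hσ a ha.1 a⁻¹ (K.inv_mem ha.1)
    rw [mul_inv_cancel, h1, ha.2, zero_add] at this
    exact this.symm⟩

theorem sigma_pow {F : Type} [Group F] {p : ℕ} {K : Subgroup F} {σ : F → ZMod p}
    (hσ : ∀ a ∈ K, ∀ b ∈ K, σ (a * b) = σ a + σ b) {x : F} (hx : x ∈ K) (n : ℕ) :
    σ (x ^ n) = n * σ x := by
  induction n with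
  | zero =>
    have h1 := hσ 1 K.one_mem 1 K.one_mem
    simp at h1
    simp [h1]
  | succ n ih =>
    rw [pow_succ, hσ _ (K.pow_mem hx n) _ hx, ih]
    push_cast
    ring

theorem pow_mem_kerOn {F : Type} [Group F] {p : ℕ} {K : Subgroup F} {σ : F → ZMod p}
    (hσ : ∀ a ∈ K, ∀ b ∈ K, σ (a * b) = σ a + σ b) {x : F} (hx : x ∈ K) :
    x ^ p ∈ kerOn K σ hσ := by
  refine ⟨K.pow_mem hx p, ?_⟩
  rw [sigma_pow hσ hx]
  simp

/-- the measure drops -/
theorem relIndex_lt {F : Type} [Group F] {C L K : Subgroup F} (hC : C.FiniteIndex) (hCL : C ≤ L)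
    (hLK : L ≤ K) (hne : L ≠ K) : C.relIndex L < C.relIndex K := by
  have h1 := Subgroup.relIndex_mul_relIndex C L K hCL hLK
  have h2 : C.relIndex K ≠ 0 := by
    have := Subgroup.relIndex_mul_index (hCL.trans hLK)
    intro h
    rw [h, zero_mul] at this
    exact hC.index_ne_zero this.symm
  have h3 : L.relIndex K ≠ 1 := by
    intro h
    rw [Subgroup.relIndex_eq_one] at h
    exact hne (le_antisymm hLK h)
  have h4 : L.relIndex K ≠ 0 := by
    intro h
    rw [h, mul_zero] at h1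
    exact h2 h1.symm
  have h5 : C.relIndex L ≠ 0 := by
    intro h
    rw [h, zero_mul] at h1
    exact h2 h1.symm
  rw [← h1]
  have h6 : 2 ≤ L.relIndex K := by omega
  have h7 : 0 < C.relIndex L := Nat.pos_of_ne_zero h5
  nlinarith

end Pool.Agent.Helper825.PA
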