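import Mathlib
import Pool.Agent.Helper825.PA4

set_option autoImplicit false

namespace Pool.Agent.Helper825.PA

variable {F : Type} [Group F] [IsFreeGroup F]

omit [IsFreeGroup F] in
theorem crossed_pow {K : Subgroup F} {q : ℕ} [NeZero q] {σ : F → ZMod q} {v : F → ZMod q → ℤ}
    (hσ : ∀ a ∈ K, ∀ b ∈ K, σ (a * b) = σ a + σ b)
    (hv : ∀ a ∈ K, ∀ b ∈ K, ∀ c, v (a * b) c = v a c + v b (c - σ a)) {r : F} (hr : r ∈ K)
    (hu : IsUnit (σ r)) (c : ZMod q) : v (r ^ q) c = ∑ d, v r d := by
  have hσ1 : σ 1 = 0 := by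
    have := hσ 1 K.one_mem 1 K.one_mem
    simp at this
    exact this
  have hv1 : ∀ c, v 1 c = 0 := by
    intro c
    have := hv 1 K.one_mem 1 K.one_mem c
    simp [hσ1] at this
    exact this
  have hpow : ∀ n : ℕ, ∀ c, v (r ^ n) c = ∑ j ∈ Finset.range n, v r (c - j * σ r) := by
    intro n
    induction n with
    | zero => intro c; simp [hv1]
    | succ n ih =>
      intro c
      rw [pow_succ', hv r hr _ (K.pow_mem hr n), ih, Finset.sum_range_succ']
      rw [add_comm]
      congr 1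
      · apply Finset.sum_congr rfl
        intro j _
        congr 1
        push_cast
        ring
      · simp
  rw [hpow]
  obtain ⟨u, hu⟩ := hu
  rw [← hu]
  have h1 : ∑ j ∈ Finset.range q, v r (c - (j : ZMod q) * u) = ∑ d : ZMod q, v r (c - d * u) := by
    rw [← Fin.sum_univ_eq_sum_range (fun j => v r (c - (j : ZMod q) * u)) q]
    apply Fintype.sum_bijective (fun j : Fin q => ((j : ℕ) : ZMod q))
    · constructor
      · intro a b hab
        have := (ZMod.natCast_eq_natCast_iff' _ _ _).1 hab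
        rw [Nat.mod_eq_of_lt a.2, Nat.mod_eq_of_lt b.2] at this
        exact Fin.ext this
      · intro c
        exact ⟨⟨c.val, ZMod.val_lt c⟩, by simp⟩
    · intro x
      rfl
  rw [h1]
  apply Fintype.sum_bijective (fun d : ZMod q => c - d * u)
  · constructor
    · intro a b hab
      have : a * u = b * u := by
        have h2 : c - a * (u : ZMod q) = c - b * u := hab
        linear_combination -h2
      exact u.isUnit.mul_right_cancel this
    · intro d
      refine ⟨(c - d) * ↑u⁻¹, ?_⟩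
      simp
  · intro x
    rfl

/-- `s` restricted to `C` and extended by zero is realizable modulo `p`. -/
theorem A2 {p : ℕ} (hp : p.Prime) {C : Subgroup F} (hC : PO p C) (n : ℕ) :
    ∀ K : Subgroup F, C ≤ K → C.relIndex K = n → ∀ s : F → ℤ, AddOn K s →
      ∃ u : F → ℤ, RZ p K u ∧ (∀ y ∈ C, (p : ℤ) ∣ u y - s y) ∧
        (∀ y ∈ K, y ∉ C → (p : ℤ) ∣ u y) := by
  induction n using Nat.strong_induction_on with
  | _ n ih =>
  intro K hCK hn s hs
  have hK : PO p K := hC.mono hCK
  by_cases hne : C = K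
  · subst hne
    exact ⟨s, RZ.of_addOn hK hs, fun y _ => by simp, fun y h1 h2 => absurd h1 h2⟩
  have : Fact p.Prime := ⟨hp⟩
  obtain ⟨σ, hσ, hσC, x₀, hx₀, hx₀σ⟩ := exists_sigma hp hC hCK hne
  set L := kerOn K σ hσ with hL
  have hLK : L ≤ K := fun x hx => hx.1
  have hCL : C ≤ L := fun c hc => ⟨hCK hc, hσC c hc⟩
  have hLne : L ≠ K := by
    intro h
    apply hx₀σ
    have : x₀ ∈ L := by rw [h]; exact hx₀
    exact this.2
  have hpow : ∀ x ∈ K, x ^ p ∈ L := fun x hx => pow_mem_kerOn hσ hx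
  have hLPO : PO p L := hC.mono hCL
  have hlt := relIndex_lt hC.1 hCL hLK hLne
  obtain ⟨uL, huL, huL1, huL2⟩ := ih (C.relIndex L) (by omega) L hCL rfl s (hs.mono hLK)
  obtain ⟨v, hv, hvs⟩ := crossed' K p σ hσ s hs
  have hl : ∀ τ, AddOn L (fun x => v x τ - v x 0) := by
    intro τ a ha b hb
    change v (a * b) τ - v (a * b) 0 = v a τ - v a 0 + (v b τ - v b 0)
    rw [hv a ha.1 b hb.1, hv a ha.1 b hb.1, ha.2]
    simp only [sub_zero]
    ring
  have hl0 : ∀ τ, ∀ x ∈ K, x ∉ L → v (x ^ p) τ - v (x ^ p) 0 = 0 := by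
    intro τ x hx hxL
    have hu : IsUnit (σ x) := by
      have : σ x ≠ 0 := fun h => hxL ⟨hx, h⟩
      exact isUnit_iff_ne_zero.2 this
    rw [crossed_pow hσ hv hx hu, crossed_pow hσ hv hx hu, sub_self]
  have claim : ∀ T : Finset (ZMod p), ∃ u : F → ℤ, RZ p K u ∧ (∀ x ∈ K, x ∉ L → (p : ℤ) ∣ u x) ∧
      (∀ y ∈ L, (∃ τ ∈ T, ¬ (p : ℤ) ∣ v y τ - v y 0) → (p : ℤ) ∣ u y - uL y) ∧
      (∀ y ∈ L, (∀ τ ∈ T, (p : ℤ) ∣ v y τ - v y 0) → (p : ℤ) ∣ u y) := by
    intro T
    induction T using Finset.induction_on with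
    | empty =>
      refine ⟨fun _ => 0, RZ.zero hK, fun _ _ _ => dvd_zero _, ?_, fun _ _ _ => dvd_zero _⟩
      rintro y _ ⟨τ, hτ, _⟩
      exact absurd hτ (Finset.notMem_empty _)
    | insert τ T hτ ihT =>
      obtain ⟨u1, hu1, h1, h2, h3⟩ := ihT
      have hg : RZ p L (fun x => uL x - u1 x) := huL.sub hp.pos (hu1.mono hLPO hLK)
      obtain ⟨u2, hu2, k1, k2, k3⟩ := clock hp hLK hpow hg (hl τ) (hl0 τ)
      refine ⟨fun x => u1 x + u2 x, hu1.add hp.pos hu2, ?_, ?_, ?_⟩
      · intro x hx hxL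
        exact dvd_add (h1 x hx hxL) (k3 x hx hxL)
      · intro y hy hex
        change (p : ℤ) ∣ u1 y + u2 y - uL y
        by_cases hT : ∃ τ' ∈ T, ¬ (p : ℤ) ∣ v y τ' - v y 0
        · have e1 := h2 y hy hT
          have e2 : (p : ℤ) ∣ u2 y := by
            by_cases hd : (p : ℤ) ∣ v y τ - v y 0
            · exact k2 y hy hd
            · rw [k1 y hy hd]
              have : uL y - u1 y = - (u1 y - uL y) := by ring
              rw [this]
              exact (dvd_neg).2 e1
          have : u1 y + u2 y - uL y = (u1 y - uL y) + u2 y := by ring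
          rw [this]
          exact dvd_add e1 e2
        · have hτd : ¬ (p : ℤ) ∣ v y τ - v y 0 := by
            obtain ⟨τ', hτ', hnd⟩ := hex
            rw [Finset.mem_insert] at hτ'
            rcases hτ' with rfl | hτ'
            · exact hnd
            · exact absurd ⟨τ', hτ', hnd⟩ hT
          rw [k1 y hy hτd]
          have : u1 y + (uL y - u1 y) - uL y = 0 := by ring
          rw [this]
          exact dvd_zero _
      · intro y hy hall
        change (p : ℤ) ∣ u1 y + u2 y
        exact dvd_add (h3 y hy (fun τ' hτ' => hall τ' (Finset.mem_insert_of_mem hτ')))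
          (k2 y hy (hall τ (Finset.mem_insert_self _ _)))
  obtain ⟨u, hu, h1, h2, h3⟩ := claim Finset.univ
  have hmain : ∀ y ∈ L, (p : ℤ) ∣ u y - uL y := by
    intro y hy
    by_cases hex : ∃ τ ∈ (Finset.univ : Finset (ZMod p)), ¬ (p : ℤ) ∣ v y τ - v y 0
    · exact h2 y hy hex
    · push Not at hex
      have e1 := h3 y hy hex
      have hsy : (p : ℤ) ∣ s y := by
        rw [← hvs y (hLK hy)]
        have : ∑ c, v y c = ∑ c, (v y c - v y 0) + (p : ℤ) * v y 0 := by
          rw [Finset.sum_sub_distrib]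
          simp [ZMod.card]
        rw [this]
        exact dvd_add (Finset.dvd_sum fun c _ => hex c (Finset.mem_univ _)) (dvd_mul_right _ _)
      have e2 : (p : ℤ) ∣ uL y := by
        by_cases hyC : y ∈ C
        · have := huL1 y hyC
          have h4 : uL y = (uL y - s y) + s y := by ring
          rw [h4]
          exact dvd_add this hsy
        · exact huL2 y hy hyC
      exact dvd_sub e1 e2
  refine ⟨u, hu, ?_, ?_⟩
  · intro y hy
    have : u y - s y = (u y - uL y) + (uL y - s y) := by ring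
    rw [this]
    exact dvd_add (hmain y (hCL hy)) (huL1 y hy)
  · intro y hy hyC
    by_cases hyL : y ∈ L
    · have : u y = (u y - uL y) + uL y := by ring
      rw [this]
      exact dvd_add (hmain y hyL) (huL2 y hyL hyC)
    · exact h1 y hy hyL

end Pool.Agent.Helper825.PA
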