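import Mathlib
import Pool.Agent.Helper825.PA5

set_option autoImplicit false

namespace Pool.Agent.Helper825.PA

variable {F : Type} [Group F]

theorem mem_zpowers_sup {p : ℕ} (hp : 0 < p) {R : Subgroup F} [R.Normal] (hR : PO p R) (x₀ : F) {x : F}
    (hx : x ∈ Subgroup.zpowers x₀ ⊔ R) : ∃ k : ℕ, ∃ r ∈ R, x = x₀ ^ k * r := by
  obtain ⟨y, hy, r, hr, hyr⟩ := Subgroup.mem_sup_of_normal_right.1 hx
  obtain ⟨z, hz⟩ := Subgroup.mem_zpowers_iff.1 hy
  obtain ⟨_, j, hj⟩ := hR
  have hq : (0 : ℤ) < (p : ℤ) ^ j := by positivity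
  refine ⟨(z % (p : ℤ) ^ j).toNat, (x₀ ^ p ^ j) ^ (z / (p : ℤ) ^ j) * r,
    R.mul_mem (R.zpow_mem (hj x₀) _) hr, ?_⟩
  rw [← hyr, ← hz, ← mul_assoc]
  congr 1
  have h1 : ((z % (p : ℤ) ^ j).toNat : ℤ) = z % (p : ℤ) ^ j :=
    Int.toNat_of_nonneg (Int.emod_nonneg _ hq.ne')
  rw [← zpow_natCast, h1, ← zpow_natCast, ← zpow_mul, ← zpow_add]
  congr 1
  push_cast
  exact (Int.emod_add_mul_ediv z _).symm

variable [IsFreeGroup F]

theorem A1 {p : ℕ} (hp : p.Prime) {K : Subgroup F} {s : F → ℤ} (hs : AddOn K s)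
    (R : Subgroup F) [R.Normal] (hR : PO p R) (hRK : R ≤ K) (hRs : ∀ r ∈ R, (p : ℤ) ∣ s r)
    (T : Finset (F ⧸ R)) :
    ∀ g : F → ℤ, (∀ x ∈ K, ∀ k : ℕ, (p : ℤ) ∣ g (x ^ k) - k * g x) →
      (∀ x ∈ K, ∀ r ∈ R, (p : ℤ) ∣ g (x * r) - g x) →
      (∀ x ∈ K, (p : ℤ) ∣ s x → (p : ℤ) ∣ g x) →
      (∀ x ∈ K, (x : F ⧸ R) ∉ T → (p : ℤ) ∣ g x) →
      ∃ u : F → ℤ, RZ p K u ∧ ∀ x ∈ K, (p : ℤ) ∣ u x - g x := by
  classical
  have hK : PO p K := hR.mono hRK
  have hpi : Prime (p : ℤ) := Nat.prime_iff_prime_int.1 hp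
  induction T using Finset.induction_on with
  | empty =>
    intro g _ _ _ h4
    refine ⟨fun _ => 0, RZ.zero hK, fun x hx => ?_⟩
    have := h4 x hx (Finset.notMem_empty _)
    change (p : ℤ) ∣ 0 - g x
    rw [zero_sub]
    exact (dvd_neg).2 this
  | insert c T hc ih =>
    intro g h1 h2 h3 h4
    by_cases hall : ∀ x ∈ K, (x : F ⧸ R) = c → (p : ℤ) ∣ g x
    · apply ih g h1 h2 h3
      intro x hx hxT
      by_cases hxc : (x : F ⧸ R) = c
      · exact hall x hx hxc
      · exact h4 x hx (by rw [Finset.mem_insert]; tauto)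
    push Not at hall
    obtain ⟨x₀, hx₀, hx₀c, hgx₀⟩ := hall
    have hsx₀ : ¬ (p : ℤ) ∣ s x₀ := fun h => hgx₀ (h3 x₀ hx₀ h)
    set C := Subgroup.zpowers x₀ ⊔ R with hCdef
    have hRC : R ≤ C := le_sup_right
    have hxC : x₀ ∈ C := (le_sup_left : Subgroup.zpowers x₀ ≤ C) (Subgroup.mem_zpowers x₀)
    have hCK : C ≤ K := by
      rw [hCdef, sup_le_iff]
      exact ⟨by rw [Subgroup.zpowers_le]; exact hx₀, hRK⟩
    have hC : PO p C := hR.mono hRC
    obtain ⟨uC, huC, huC1, huC2⟩ := A2 hp hC _ K hCK rfl s hs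
    have hcop : IsCoprime (s x₀) (p : ℤ) :=
      ((Prime.coprime_iff_not_dvd hpi).2 hsx₀).symm
    obtain ⟨a, b, hab⟩ := hcop
    -- `a * s x₀ + b * p = 1`
    have hmemC : ∀ x ∈ C, ∃ k : ℕ, ∃ r ∈ R, x = x₀ ^ k * r := fun x hx =>
      mem_zpowers_sup hp.pos hR x₀ hx
    have hg'C : ∀ x ∈ C, (p : ℤ) ∣ g x - (g x₀ * a) * uC x := by
      intro x hx
      obtain ⟨k, r, hr, rfl⟩ := hmemC x hx
      have e1 := h2 _ (K.pow_mem hx₀ k) r hr
      have e2 := h1 x₀ hx₀ k
      have e3 := huC1 _ hx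
      have e4 : s (x₀ ^ k * r) = k * s x₀ + s r := by
        rw [hs _ (K.pow_mem hx₀ k) _ (hRK hr), hs.pow hx₀]
      have e5 := hRs r hr
      have : g (x₀ ^ k * r) - (g x₀ * a) * uC (x₀ ^ k * r)
          = (g (x₀ ^ k * r) - g (x₀ ^ k)) + (g (x₀ ^ k) - k * g x₀)
            - (g x₀ * a) * (uC (x₀ ^ k * r) - s (x₀ ^ k * r))
            - (g x₀ * a) * s r + (p : ℤ) * (k * g x₀ * b) := by
        rw [e4]
        linear_combination -(k * g x₀) * hab
      rw [this]
      refine dvd_add (dvd_sub (dvd_sub (dvd_add e1 e2) ?_) ?_) (dvd_mul_right _ _)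
      · exact dvd_mul_of_dvd_right e3 _
      · exact dvd_mul_of_dvd_right e5 _
    have c1 : ∀ x ∈ K, ∀ k : ℕ, (p : ℤ) ∣
        (fun x => g x - (g x₀ * a) * uC x) (x ^ k) - k * (fun x => g x - (g x₀ * a) * uC x) x := by
      intro x hx k
      change (p : ℤ) ∣ g (x ^ k) - (g x₀ * a) * uC (x ^ k) - k * (g x - (g x₀ * a) * uC x)
      rw [huC.pow hx k]
      have : g (x ^ k) - (g x₀ * a) * (k * uC x) - k * (g x - (g x₀ * a) * uC x)
        = g (x ^ k) - k * g x := by ring
      rw [this]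
      exact h1 x hx k
    have c2 : ∀ x ∈ K, ∀ r ∈ R, (p : ℤ) ∣
        (fun x => g x - (g x₀ * a) * uC x) (x * r) - (fun x => g x - (g x₀ * a) * uC x) x := by
      intro x hx r hr
      change (p : ℤ) ∣ g (x * r) - (g x₀ * a) * uC (x * r) - (g x - (g x₀ * a) * uC x)
      have e1 := h2 x hx r hr
      have e2 : (p : ℤ) ∣ uC (x * r) - uC x := by
        by_cases hxC' : x ∈ C
        · have e3 := huC1 x hxC'
          have e4 := huC1 (x * r) (C.mul_mem hxC' (hRC hr))
          have e5 : s (x * r) = s x + s r := hs x hx r (hRK hr)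
          have : uC (x * r) - uC x = (uC (x * r) - s (x * r)) - (uC x - s x) + s r := by
            rw [e5]; ring
          rw [this]
          exact dvd_add (dvd_sub e4 e3) (hRs r hr)
        · have hxr : x * r ∉ C := fun h => hxC' ((Subgroup.mul_mem_cancel_right C (hRC hr)).1 h)
          exact dvd_sub (huC2 _ (K.mul_mem hx (hRK hr)) hxr) (huC2 x hx hxC')
      have : g (x * r) - (g x₀ * a) * uC (x * r) - (g x - (g x₀ * a) * uC x)
        = (g (x * r) - g x) - (g x₀ * a) * (uC (x * r) - uC x) := by ring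
      rw [this]
      exact dvd_sub e1 (dvd_mul_of_dvd_right e2 _)
    have c3 : ∀ x ∈ K, (p : ℤ) ∣ s x → (p : ℤ) ∣ (fun x => g x - (g x₀ * a) * uC x) x := by
      intro x hx hsx
      change (p : ℤ) ∣ g x - (g x₀ * a) * uC x
      refine dvd_sub (h3 x hx hsx) (dvd_mul_of_dvd_right ?_ _)
      by_cases hxC' : x ∈ C
      · have := huC1 x hxC'
        have e : uC x = (uC x - s x) + s x := by ring
        rw [e]
        exact dvd_add this hsx
      · exact huC2 x hx hxC'
    have c4 : ∀ x ∈ K, (x : F ⧸ R) ∉ T → (p : ℤ) ∣ (fun x => g x - (g x₀ * a) * uC x) x := by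
      intro x hx hxT
      change (p : ℤ) ∣ g x - (g x₀ * a) * uC x
      by_cases hxC' : x ∈ C
      · exact hg'C x hxC'
      · refine dvd_sub (h4 x hx ?_) (dvd_mul_of_dvd_right (huC2 x hx hxC') _)
        rw [Finset.mem_insert]
        rintro (h | h)
        · apply hxC'
          rw [← hx₀c] at h
          have h5 : x₀⁻¹ * x ∈ R := QuotientGroup.eq.1 h.symm
          have h6 : x = x₀ * (x₀⁻¹ * x) := by group
          rw [h6]
          exact C.mul_mem hxC (hRC h5)
        · exact hxT h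
    obtain ⟨u, hu, hug⟩ := ih (fun x => g x - (g x₀ * a) * uC x) c1 c2 c3 c4
    refine ⟨fun x => u x + (g x₀ * a) * uC x, hu.add hp.pos (huC.smul _), fun x hx => ?_⟩
    have := hug x hx
    change (p : ℤ) ∣ u x + (g x₀ * a) * uC x - g x
    have e : u x + (g x₀ * a) * uC x - g x = u x - (g x - (g x₀ * a) * uC x) := by ring
    rw [e]
    exact this

/-- lifting a homomorphism to `ZMod p` of a subgroup of a free group -/
theorem lift_sigma {p : ℕ} [NeZero p] (K : Subgroup F) (σ : F → ZMod p)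
    (hσ : ∀ a ∈ K, ∀ b ∈ K, σ (a * b) = σ a + σ b) :
    ∃ s : F → ℤ, AddOn K s ∧ ∀ x ∈ K, ((s x : ℤ) : ZMod p) = σ x := by
  classical
  have hσ1 : σ 1 = 0 := by
    have := hσ 1 K.one_mem 1 K.one_mem
    simp at this
    exact this
  let σ' : K →* Multiplicative (ZMod p) :=
    { toFun := fun x => Multiplicative.ofAdd (σ x)
      map_one' := by simp [hσ1]
      map_mul' := fun a b => by
        rw [← ofAdd_add]
        congr 1
        exact hσ a a.2 b b.2 }
  let s' : K →* Multiplicative ℤ := IsFreeGroup.lift (fun g =>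
    Multiplicative.ofAdd (((Multiplicative.toAdd (σ' (IsFreeGroup.of g))).val : ℤ)))
  have hcomp : (AddMonoidHom.toMultiplicative (Int.castAddHom (ZMod p))).comp s' = σ' := by
    apply IsFreeGroup.ext_hom
    intro g
    simp [s']
  refine ⟨fun x => if h : x ∈ K then Multiplicative.toAdd (s' ⟨x, h⟩) else 0, ?_, ?_⟩
  · intro a ha b hb
    simp only [ha, hb, K.mul_mem ha hb, dif_pos]
    rw [← toAdd_mul, ← map_mul]
    rfl
  · intro x hx
    simp only [hx, dif_pos]
    have := congrArg (fun f => Multiplicative.toAdd (f ⟨x, hx⟩)) hcomp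
    exact this

/-- every homogeneous continuous function is realizable modulo `p` -/
theorem star {p : ℕ} (hp : p.Prime) (n : ℕ) :
    ∀ (R : Subgroup F), R.Normal → PO p R →
    ∀ K : Subgroup F, R ≤ K → R.relIndex K = n → ∀ h : F → ℤ,
      (∀ x ∈ K, ∀ k : ℕ, (p : ℤ) ∣ h (x ^ k) - k * h x) →
      (∀ x ∈ K, ∀ r ∈ R, (p : ℤ) ∣ h (x * r) - h x) →
      ∃ u : F → ℤ, RZ p K u ∧ ∀ x ∈ K, (p : ℤ) ∣ u x - h x := by
  classical
  induction n using Nat.strong_induction_on with
  | _ n ih =>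
  intro R hRn hR K hRK hn h h1 h2
  have hK : PO p K := hR.mono hRK
  by_cases hne : R = K
  · refine ⟨fun _ => 0, RZ.zero hK, fun x hx => ?_⟩
    have e1 := h2 1 K.one_mem x (by rw [hne]; exact hx)
    have e2 := h1 1 K.one_mem 0
    rw [one_mul] at e1
    simp at e2
    change (p : ℤ) ∣ 0 - h x
    have : 0 - h x = - ((h x - h 1) + h 1) := by ring
    rw [this]
    exact (dvd_neg).2 (dvd_add e1 e2)
  have : Fact p.Prime := ⟨hp⟩
  obtain ⟨σ, hσ, hσR, x₀, hx₀, hx₀σ⟩ := exists_sigma hp hR hRK hne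
  set L := kerOn K σ hσ with hL
  have hLK : L ≤ K := fun x hx => hx.1
  have hRL : R ≤ L := fun c hc => ⟨hRK hc, hσR c hc⟩
  have hLne : L ≠ K := by
    intro h
    apply hx₀σ
    have : x₀ ∈ L := by rw [h]; exact hx₀
    exact this.2
  have hpow : ∀ x ∈ K, x ^ p ∈ L := fun x hx => pow_mem_kerOn hσ hx
  have hlt := relIndex_lt hR.1 hRL hLK hLne
  obtain ⟨uL, huL, huLh⟩ := ih (R.relIndex L) (by omega) R hRn hR L hRL rfl h
    (fun x hx => h1 x (hLK hx)) (fun x hx => h2 x (hLK hx))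
  obtain ⟨v, hv, hvu⟩ := huL.ext hp.pos hLK hpow (by
    intro x hx hxL
    have e1 := huLh _ (hpow x hx)
    have e2 := h1 x hx p
    have : uL (x ^ p) = (uL (x ^ p) - h (x ^ p)) + (h (x ^ p) - p * h x) + p * h x := by ring
    rw [this]
    exact dvd_add (dvd_add e1 e2) (dvd_mul_right _ _))
  obtain ⟨s, hs, hsσ⟩ := lift_sigma K σ hσ
  obtain ⟨R', hR'n, hR', hR'K, hcont⟩ := hv.cont hp.pos 1
  have hRRn : (R ⊓ R').Normal := inferInstance
  have hRR : PO p (R ⊓ R') := hR.inf hR'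
  have hfin : (R ⊓ R').FiniteIndex := hRR.1
  have : Finite (F ⧸ (R ⊓ R')) := inferInstance
  have : Fintype (F ⧸ (R ⊓ R')) := Fintype.ofFinite _
  obtain ⟨u, hu, hug⟩ := A1 hp hs (R ⊓ R') hRR (inf_le_left.trans hRK) (by
    intro r hr
    have := hsσ r (hRK hr.1)
    rw [hσR r hr.1] at this
    exact (ZMod.intCast_zmod_eq_zero_iff_dvd _ _).1 this) Finset.univ (fun x => h x - v x)
    (by
      intro x hx k
      change (p : ℤ) ∣ h (x ^ k) - v (x ^ k) - k * (h x - v x)
      rw [hv.pow hx k]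
      have : h (x ^ k) - k * v x - k * (h x - v x) = h (x ^ k) - k * h x := by ring
      rw [this]
      exact h1 x hx k)
    (by
      intro x hx r hr
      change (p : ℤ) ∣ h (x * r) - v (x * r) - (h x - v x)
      have e1 := h2 x hx r hr.1
      have e2 := hcont x hx r hr.2
      rw [pow_one] at e2
      have : h (x * r) - v (x * r) - (h x - v x) = (h (x * r) - h x) - (v (x * r) - v x) := by ring
      rw [this]
      exact dvd_sub e1 e2)
    (by
      intro x hx hsx
      have hσx : σ x = 0 := by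
        rw [← hsσ x hx]
        exact (ZMod.intCast_zmod_eq_zero_iff_dvd _ _).2 hsx
      have hxL : x ∈ L := ⟨hx, hσx⟩
      change (p : ℤ) ∣ h x - v x
      rw [hvu x hxL]
      have e1 := huLh x hxL
      have : h x - uL x = - (uL x - h x) := by ring
      rw [this]
      exact (dvd_neg).2 e1)
    (by
      intro x _ hx
      exact absurd (Finset.mem_univ _) hx)
  refine ⟨fun x => v x + u x, hv.add hp.pos hu, fun x hx => ?_⟩
  have e1 := hug x hx
  change (p : ℤ) ∣ v x + u x - h x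
  have : v x + u x - h x = u x - (h x - v x) := by ring
  rw [this]
  exact e1

/-- every homogeneous continuous function modulo `p ^ N` is realizable -/
theorem starN {p : ℕ} (hp : p.Prime) (N : ℕ) :
    ∀ (R : Subgroup F), R.Normal → PO p R →
    ∀ K : Subgroup F, R ≤ K → ∀ h : F → ℤ,
      (∀ x ∈ K, ∀ k : ℕ, (p : ℤ) ^ N ∣ h (x ^ k) - k * h x) →
      (∀ x ∈ K, ∀ r ∈ R, (p : ℤ) ^ N ∣ h (x * r) - h x) →
      ∃ u : F → ℤ, RZ p K u ∧ ∀ x ∈ K, (p : ℤ) ^ N ∣ u x - h x := by
  induction N with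
  | zero =>
    intro R _ hR K hRK h _ _
    exact ⟨fun _ => 0, RZ.zero (hR.mono hRK), fun x _ => by simp⟩
  | succ N ih =>
    intro R hRn hR K hRK h h1 h2
    have hp0 : (p : ℤ) ≠ 0 := by exact_mod_cast hp.ne_zero
    have hpd : (p : ℤ) ∣ (p : ℤ) ^ (N + 1) := dvd_pow_self _ (Nat.succ_ne_zero N)
    obtain ⟨u, hu, huh⟩ := star hp _ R hRn hR K hRK rfl h
      (fun x hx k => hpd.trans (h1 x hx k)) (fun x hx r hr => hpd.trans (h2 x hx r hr))
    obtain ⟨R', hR'n, hR', hR'K, hcont⟩ := hu.cont hp.pos (N + 1)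
    have key : ∀ x ∈ K, (p : ℤ) * ((h x - u x) / p) = h x - u x := by
      intro x hx
      apply Int.mul_ediv_cancel'
      have := huh x hx
      have e : h x - u x = - (u x - h x) := by ring
      rw [e]
      exact (dvd_neg).2 this
    obtain ⟨w, hw, hwh⟩ := ih (R ⊓ R') inferInstance (hR.inf hR') K (inf_le_left.trans hRK)
      (fun x => (h x - u x) / p)
      (by
        intro x hx k
        change (p : ℤ) ^ N ∣ (h (x ^ k) - u (x ^ k)) / p - k * ((h x - u x) / p)
        have e1 := h1 x hx k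
        rw [pow_succ'] at e1
        rw [← mul_dvd_mul_iff_left hp0]
        have e2 : (p : ℤ) * ((h (x ^ k) - u (x ^ k)) / p - k * ((h x - u x) / p))
            = h (x ^ k) - k * h x := by
          have f1 := key _ (K.pow_mem hx k)
          have f2 := key x hx
          have f3 := hu.pow hx k
          linear_combination f1 - k * f2 - f3
        rw [e2]
        exact e1)
      (by
        intro x hx r hr
        change (p : ℤ) ^ N ∣ (h (x * r) - u (x * r)) / p - (h x - u x) / p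
        have e1 := h2 x hx r hr.1
        have e3 := hcont x hx r hr.2
        rw [pow_succ'] at e1 e3
        rw [← mul_dvd_mul_iff_left hp0]
        have e2 : (p : ℤ) * ((h (x * r) - u (x * r)) / p - (h x - u x) / p)
            = (h (x * r) - h x) - (u (x * r) - u x) := by
          have f1 := key _ (K.mul_mem hx (hRK hr.1))
          have f2 := key x hx
          linear_combination f1 - f2
        rw [e2]
        exact dvd_sub e1 e3)
    refine ⟨fun x => u x + p * w x, hu.add hp.pos (hw.smul _), fun x hx => ?_⟩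
    have e1 := hwh x hx
    change (p : ℤ) ^ (N + 1) ∣ u x + p * w x - h x
    have e2 : u x + p * w x - h x = p * (w x - (h x - u x) / p) := by
      have f2 := key x hx
      linear_combination f2
    rw [e2, pow_succ']
    exact mul_dvd_mul_left _ e1

end Pool.Agent.Helper825.PA
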