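import Mathlib
import Pool.Agent.Helper825.PA6

set_option autoImplicit false

namespace Pool.Agent.Helper825.PA

section ring

variable {p N : ℕ}

theorem zmod_dvd_total (hp : p.Prime) (a b : ZMod (p ^ N)) : a ∣ b ∨ b ∣ a := by
  have : NeZero (p ^ N) := ⟨(pow_pos hp.pos N).ne'⟩
  -- every element is associated to a power of `p`
  have key : ∀ a : ZMod (p ^ N), ∃ i : ℕ, (p : ZMod (p ^ N)) ^ i ∣ a ∧ a ∣ (p : ZMod (p ^ N)) ^ i := by
    intro a
    obtain ⟨i, hi, hgi⟩ := (Nat.dvd_prime_pow hp).1 (Nat.gcd_dvd_right a.val (p ^ N))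
    refine ⟨i, ?_, ?_⟩
    · have h1 : p ^ i ∣ a.val := by rw [← hgi]; exact Nat.gcd_dvd_left _ _
      obtain ⟨c, hc⟩ := h1
      refine ⟨(c : ZMod (p ^ N)), ?_⟩
      rw [← ZMod.natCast_zmod_val a, hc]
      push_cast
      rfl
    · have hb := Nat.gcd_eq_gcd_ab a.val (p ^ N)
      rw [hgi] at hb
      have h2 := congrArg (fun z : ℤ => (z : ZMod (p ^ N))) hb
      simp only [Int.cast_add, Int.cast_mul, Int.cast_natCast, ZMod.natCast_self, zero_mul,
        add_zero, ZMod.natCast_zmod_val] at h2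
      refine ⟨((a.val.gcdA (p ^ N) : ℤ) : ZMod (p ^ N)), ?_⟩
      rw [← h2]
      push_cast
      rfl
  obtain ⟨i, hi1, hi2⟩ := key a
  obtain ⟨j, hj1, hj2⟩ := key b
  rcases le_total i j with h | h
  · left
    exact hi2.trans ((pow_dvd_pow _ h).trans hj1)
  · right
    exact hj2.trans ((pow_dvd_pow _ h).trans hi1)

theorem zmod_isUnit_one_sub (hp : p.Prime) (c t : ZMod (p ^ N)) (hc : ¬ IsUnit c) :
    IsUnit (1 - c * t) := by
  have : NeZero (p ^ N) := ⟨(pow_pos hp.pos N).ne'⟩
  have h1 : p ∣ c.val := by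
    by_contra h
    apply hc
    rw [← ZMod.natCast_zmod_val c, ZMod.isUnit_iff_coprime]
    exact Nat.Coprime.pow_right _ ((Nat.Prime.coprime_iff_not_dvd hp).2 h).symm
  obtain ⟨m, hm⟩ := h1
  have h2 : c ^ N = 0 := by
    rw [← ZMod.natCast_zmod_val c, hm, ← Nat.cast_pow, mul_pow, Nat.cast_mul, ZMod.natCast_self,
      zero_mul]
  have h3 : IsNilpotent (c * t) := ⟨N, by rw [mul_pow, h2, zero_mul]⟩
  exact h3.isUnit_one_sub

open Classical in
/-- the first entry of smallest valuation -/
noncomputable def HL (p N : ℕ) : List (ZMod (p ^ N)) → ZMod (p ^ N)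
  | [] => 0
  | w :: ws => if w ∣ HL p N ws then w else HL p N ws

theorem HL_dvd (hp : p.Prime) (l : List (ZMod (p ^ N))) : ∀ w ∈ l, HL p N l ∣ w := by
  classical
  induction l with
  | nil => intro w hw; simp at hw
  | cons a l ih =>
    intro w hw
    rw [HL]
    split_ifs with h
    · rcases List.mem_cons.1 hw with rfl | hw
      · exact dvd_rfl
      · exact h.trans (ih w hw)
    · rcases List.mem_cons.1 hw with rfl | hw
      · exact (zmod_dvd_total hp w (HL p N l)).resolve_left h
      · exact ih w hw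

theorem HL_mul (hp : p.Prime) (k : ZMod (p ^ N)) (l : List (ZMod (p ^ N))) :
    HL p N (l.map (fun w => k * w)) = k * HL p N l := by
  classical
  induction l with
  | nil => simp [HL]
  | cons a l ih =>
    rw [List.map_cons, HL, HL, ih]
    by_cases h : a ∣ HL p N l
    · rw [if_pos h, if_pos (mul_dvd_mul_left k h)]
    · rw [if_neg h]
      split_ifs with h2
      · obtain ⟨c, hc⟩ := (zmod_dvd_total hp a (HL p N l)).resolve_left h
        obtain ⟨t, ht⟩ := h2
        have hcu : ¬ IsUnit c := by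
          rintro ⟨u, rfl⟩
          apply h
          exact ⟨↑u⁻¹, by rw [hc]; simp [mul_assoc]⟩
        have hu := zmod_isUnit_one_sub hp c t hcu
        have h3 : k * HL p N l * (1 - c * t) = 0 := by
          have : k * HL p N l = k * (HL p N l * c) * t := by
            rw [← hc]; exact ht
          linear_combination this
        have h4 : k * HL p N l = 0 := by
          rwa [hu.mul_left_eq_zero] at h3
        rw [h4, hc, ← mul_assoc, h4, zero_mul]
      · rfl

theorem HL_single {ι : Type} [DecidableEq ι] (i : ι) (c : ZMod (p ^ N)) (l : List ι) :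
    HL p N (l.map (Pi.single i c : ι → ZMod (p ^ N))) = if i ∈ l then c else 0 := by
  classical
  induction l with
  | nil => simp [HL]
  | cons a l ih =>
    rw [List.map_cons, HL, ih]
    by_cases hai : a = i
    · subst hai
      simp only [Pi.single_eq_same, List.mem_cons, true_or, if_true]
      split_ifs <;> simp_all
    · have : (Pi.single i c : ι → ZMod (p ^ N)) a = 0 := by simp [hai]
      rw [this]
      have hmem : i ∈ a :: l ↔ i ∈ l := by
        rw [List.mem_cons]
        constructor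
        · rintro (h | h)
          · exact absurd h.symm hai
          · exact h
        · exact fun h => Or.inr h
      simp only [hmem]
      split_ifs <;> simp_all

end ring

section weights

variable {p N : ℕ} {ι : Type} [Fintype ι] [DecidableEq ι]

/-- the value on a vector -/
noncomputable def Hf (p N : ℕ) {ι : Type} [Fintype ι] (w : ι → ZMod (p ^ N)) : ZMod (p ^ N) :=
  HL p N (Finset.univ.toList.map w)

omit [DecidableEq ι] in
theorem Hf_dvd (hp : p.Prime) (w : ι → ZMod (p ^ N)) (i : ι) : Hf p N w ∣ w i := by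
  apply HL_dvd hp
  rw [List.mem_map]
  exact ⟨i, by simp, rfl⟩

omit [DecidableEq ι] in
theorem Hf_mul (hp : p.Prime) (k : ZMod (p ^ N)) (w : ι → ZMod (p ^ N)) :
    Hf p N (fun i => k * w i) = k * Hf p N w := by
  unfold Hf
  rw [← HL_mul hp, List.map_map]
  rfl

theorem Hf_single (i : ι) (c : ZMod (p ^ N)) :
    Hf p N (Pi.single i c : ι → ZMod (p ^ N)) = c := by
  unfold Hf
  rw [HL_single]
  simp

/-- weight homomorphism -/
def wt (p N : ℕ) {ι : Type} [DecidableEq ι] (c : ι → ZMod (p ^ N)) :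
    FreeGroup ι →* Multiplicative (ι → ZMod (p ^ N)) :=
  FreeGroup.lift (fun i => Multiplicative.ofAdd (Pi.single i (c i)))

/-- the function on the free group -/
noncomputable def hF (p N : ℕ) {ι : Type} [Fintype ι] [DecidableEq ι] (c : ι → ZMod (p ^ N))
    (x : FreeGroup ι) : ZMod (p ^ N) :=
  Hf p N (Multiplicative.toAdd (wt p N c x))

theorem hF_pow (hp : p.Prime) (c : ι → ZMod (p ^ N)) (x : FreeGroup ι) (k : ℕ) :
    hF p N c (x ^ k) = k * hF p N c x := by
  unfold hF
  rw [← Hf_mul hp]
  congr 1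
  rw [map_pow, toAdd_pow]
  ext i
  simp

theorem hF_of (c : ι → ZMod (p ^ N)) (i : ι) : hF p N c (FreeGroup.of i) = c i := by
  unfold hF
  have : Multiplicative.toAdd (wt p N c (FreeGroup.of i)) = Pi.single i (c i) := by
    simp [wt]
  rw [this, Hf_single]

theorem hF_conj (c : ι → ZMod (p ^ N)) (g x : FreeGroup ι) :
    hF p N c (g * x * g⁻¹) = hF p N c x := by
  unfold hF
  congr 2
  rw [map_mul, map_mul, map_inv, mul_inv_cancel_comm]

/-- application of the core theorem -/
theorem exists_data (hp : p.Prime) (c : ι → ZMod (p ^ N)) (e₀ : ℕ) :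
    ∃ (e : ℕ) (S : Subgroup (FreeGroup ι)) (φ : FreeGroup ι → ℤ), e₀ ≤ e ∧ AddOn S φ ∧
      (∀ x, x ^ (p ^ e) ∈ S) ∧ ∀ x, ((φ (x ^ (p ^ e)) : ℤ) : ZMod (p ^ N)) = hF p N c x := by
  have : NeZero (p ^ N) := ⟨(pow_pos hp.pos N).ne'⟩
  have hval : ∀ y : ZMod (p ^ N), (((y.val : ℤ)) : ZMod (p ^ N)) = y := by
    intro y
    rw [Int.cast_natCast, ZMod.natCast_zmod_val]
  have hcast : ((p ^ N : ℕ) : ℤ) = (p : ℤ) ^ N := by push_cast; rfl
  have hR : PO p (wt p N c).ker := by
    refine ⟨?_, N, ?_⟩
    · have : Finite (Multiplicative (ι → ZMod (p ^ N))) :=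
        inferInstanceAs (Finite (ι → ZMod (p ^ N)))
      infer_instance
    · intro x
      rw [MonoidHom.mem_ker, map_pow]
      apply Multiplicative.toAdd.injective
      rw [toAdd_pow]
      ext i
      simp only [Pi.smul_apply, nsmul_eq_mul, toAdd_one, Pi.zero_apply]
      rw [ZMod.natCast_self, zero_mul]
  obtain ⟨u, hu, huh⟩ := starN hp N (wt p N c).ker inferInstance hR ⊤ le_top
    (fun x => ((hF p N c x).val : ℤ))
    (by
      intro x _ k
      rw [← hcast, ← ZMod.intCast_zmod_eq_zero_iff_dvd]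
      rw [Int.cast_sub, Int.cast_mul, hval, hval, hF_pow hp]
      push_cast
      ring)
    (by
      intro x _ r hr
      have : hF p N c (x * r) = hF p N c x := by
        unfold hF
        rw [map_mul, MonoidHom.mem_ker.1 hr, mul_one]
      rw [this, sub_self]
      exact dvd_zero _)
  obtain ⟨e, he⟩ := hu
  obtain ⟨S, φ, _, _, hφ, hx, hux⟩ := he.raise_le hp.pos (le_max_left e e₀)
  refine ⟨max e e₀, S, φ, le_max_right _ _, hφ, fun x => hx x trivial, fun x => ?_⟩
  rw [← hux x trivial]
  have h1 := huh x trivial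
  rw [← hcast, ← ZMod.intCast_zmod_eq_zero_iff_dvd, Int.cast_sub, hval, sub_eq_zero] at h1
  exact h1

end weights

end Pool.Agent.Helper825.PA
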