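import Mathlib
import Pool.Agent.Helper825.PA7

set_option autoImplicit false

namespace Pool.Agent.Helper825.PA

variable {p N : ℕ} {ι : Type} [Fintype ι] [DecidableEq ι]

/-- exponent sum of the generator `i` -/
def expo (i : ι) : FreeGroup ι →* Multiplicative ℤ :=
  FreeGroup.lift (fun j => Multiplicative.ofAdd (if j = i then 1 else 0))

theorem exists_P (hp : p.Prime) (c : ι → ZMod (p ^ N)) (i₀ : ι) (hi₀ : c i₀ = 1) :
    ∃ (e : ℕ) (P : Type) (_ : Group P) (π : FreeGroup ι →* P)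
      (ζ : Multiplicative (ZMod (p ^ N)) →* P),
      N ≤ e ∧ 1 ≤ e ∧ Function.Surjective π ∧ Function.Injective ζ ∧
      (∀ a x, ζ a * x = x * ζ a) ∧
      (∀ x, π x ^ (p ^ e) = ζ (Multiplicative.ofAdd (hF p N c x))) ∧
      (∀ x a, π x = ζ a → ∀ i, ((p ^ e : ℕ) : ℤ) ∣ Multiplicative.toAdd (expo i x)) ∧
      (∀ f : FreeGroup ι →* Multiplicative (ZMod (p ^ N)),
        ∃ f' : P →* Multiplicative (ZMod (p ^ N)), ∀ x, f' (π x) = f x) := by
  have : NeZero (p ^ N) := ⟨(pow_pos hp.pos N).ne'⟩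
  obtain ⟨e, S, φ, he, hφ, hx, hφh⟩ := exists_data hp c (max N 1)
  set B : Subgroup (FreeGroup ι) := Subgroup.closure {y | ∃ x, x ^ (p ^ e) = y} with hB
  have hBS : B ≤ S := by
    rw [hB, Subgroup.closure_le]
    rintro y ⟨x, rfl⟩
    exact hx x
  have hBx : ∀ x, x ^ (p ^ e) ∈ B := fun x => Subgroup.subset_closure ⟨x, rfl⟩
  have hBn : ∀ g, ∀ b ∈ B, g * b * g⁻¹ ∈ B := by
    intro g b hb
    induction hb using Subgroup.closure_induction with
    | mem y hy =>
      obtain ⟨x, rfl⟩ := hy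
      rw [← conj_pow]
      exact hBx _
    | one => simp
    | mul a b _ _ ha hb =>
      have : g * (a * b) * g⁻¹ = (g * a * g⁻¹) * (g * b * g⁻¹) := by group
      rw [this]
      exact B.mul_mem ha hb
    | inv a _ ha =>
      have : g * a⁻¹ * g⁻¹ = (g * a * g⁻¹)⁻¹ := by group
      rw [this]
      exact B.inv_mem ha
  have hφB : AddOn B φ := hφ.mono hBS
  have hconj : ∀ g, ∀ b ∈ B, ((φ (g * b * g⁻¹) : ℤ) : ZMod (p ^ N)) = φ b := by
    intro g b hb
    induction hb using Subgroup.closure_induction with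
    | mem y hy =>
      obtain ⟨x, rfl⟩ := hy
      rw [← conj_pow, hφh, hφh, hF_conj]
    | one => simp
    | mul a b ha' hb' ha hb =>
      have : g * (a * b) * g⁻¹ = (g * a * g⁻¹) * (g * b * g⁻¹) := by group
      rw [this, hφB _ (hBn g a ha') _ (hBn g b hb'), hφB _ ha' _ hb']
      push_cast
      rw [ha, hb]
    | inv a ha' ha =>
      have : g * a⁻¹ * g⁻¹ = (g * a * g⁻¹)⁻¹ := by group
      rw [this, hφB.inv (hBn g a ha'), hφB.inv ha']
      push_cast
      rw [ha]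
  set N₀ : Subgroup (FreeGroup ι) := cut B φ hφB ((p ^ N : ℕ) : ℤ) with hN₀
  have hmem : ∀ x, x ∈ N₀ ↔ x ∈ B ∧ ((φ x : ℤ) : ZMod (p ^ N)) = 0 := by
    intro x
    rw [ZMod.intCast_zmod_eq_zero_iff_dvd]
    exact Iff.rfl
  have hN₀n : N₀.Normal := by
    refine ⟨fun n hn g => ?_⟩
    rw [hmem] at hn ⊢
    exact ⟨hBn g n hn.1, by rw [hconj g n hn.1]; exact hn.2⟩
  -- elements of `B` with the same value have the same class
  have hclass : ∀ a ∈ B, ∀ b ∈ B, ((φ a : ℤ) : ZMod (p ^ N)) = φ b →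
      (QuotientGroup.mk' N₀ a) = QuotientGroup.mk' N₀ b := by
    intro a ha b hb hab
    rw [QuotientGroup.mk'_apply, QuotientGroup.mk'_apply, QuotientGroup.eq, hmem]
    refine ⟨B.mul_mem (B.inv_mem ha) hb, ?_⟩
    rw [hφB _ (B.inv_mem ha) _ hb, hφB.inv ha]
    push_cast
    rw [hab]
    ring
  set b₀ := (FreeGroup.of i₀) ^ (p ^ e) with hb₀
  have hb₀B : b₀ ∈ B := hBx _
  have hb₀φ : ((φ b₀ : ℤ) : ZMod (p ^ N)) = 1 := by
    rw [hb₀, hφh, hF_of, hi₀]
  have hb₀pow : ∀ n : ℕ, ((φ (b₀ ^ n) : ℤ) : ZMod (p ^ N)) = n := by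
    intro n
    rw [hφB.pow hb₀B]
    push_cast
    rw [hb₀φ, mul_one]
  let ζ : Multiplicative (ZMod (p ^ N)) →* (FreeGroup ι ⧸ N₀) :=
    { toFun := fun a => QuotientGroup.mk' N₀ (b₀ ^ (Multiplicative.toAdd a).val)
      map_one' := by simp
      map_mul' := fun a b => by
        rw [← map_mul, ← pow_add]
        apply hclass _ (B.pow_mem hb₀B _) _ (B.pow_mem hb₀B _)
        rw [hb₀pow, hb₀pow]
        push_cast
        rw [ZMod.natCast_zmod_val, ZMod.natCast_zmod_val, ZMod.natCast_zmod_val]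
        rfl }
  have hζ : ∀ a, ζ a = QuotientGroup.mk' N₀ (b₀ ^ (Multiplicative.toAdd a).val) := fun a => rfl
  have hζB : ∀ b ∈ B, ζ (Multiplicative.ofAdd ((φ b : ℤ) : ZMod (p ^ N))) =
      QuotientGroup.mk' N₀ b := by
    intro b hb
    rw [hζ]
    apply hclass _ (B.pow_mem hb₀B _) _ hb
    rw [hb₀pow, toAdd_ofAdd, ZMod.natCast_zmod_val]
  refine ⟨e, FreeGroup ι ⧸ N₀, inferInstance, QuotientGroup.mk' N₀, ζ,
    (le_max_left _ _).trans he, (le_max_right _ _).trans he,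
    QuotientGroup.mk'_surjective N₀, ?_, ?_, ?_, ?_, ?_⟩
  · rw [injective_iff_map_eq_one]
    intro a ha
    rw [hζ, QuotientGroup.mk'_apply, QuotientGroup.eq_one_iff, hmem, hb₀pow,
      ZMod.natCast_zmod_val] at ha
    exact ha.2
  · intro a x
    obtain ⟨y, rfl⟩ := QuotientGroup.mk'_surjective N₀ x
    rw [hζ]
    set b := b₀ ^ (Multiplicative.toAdd a).val
    have hb : b ∈ B := B.pow_mem hb₀B _
    have h1 := hclass _ (hBn y b hb) b hb (hconj y b hb)
    rw [map_mul, map_mul, map_inv] at h1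
    exact (mul_inv_eq_iff_eq_mul.1 h1).symm
  · intro x
    rw [← map_pow, ← hζB _ (hBx x), hφh]
  · intro x a hxa i
    have hxB : x ∈ B := by
      rw [hζ, QuotientGroup.mk'_apply, QuotientGroup.mk'_apply, QuotientGroup.eq, hmem] at hxa
      have h1 := hxa.1
      have h2 : x = b₀ ^ (Multiplicative.toAdd a).val * (x⁻¹ * b₀ ^ (Multiplicative.toAdd a).val)⁻¹ := by
        group
      rw [h2]
      exact B.mul_mem (B.pow_mem hb₀B _) (B.inv_mem h1)
    have h3 : B ≤ (Subgroup.zpowers (Multiplicative.ofAdd ((p ^ e : ℕ) : ℤ))).comap (expo i) := by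
      rw [hB, Subgroup.closure_le]
      rintro y ⟨x, rfl⟩
      rw [SetLike.mem_coe, Subgroup.mem_comap, map_pow, Subgroup.mem_zpowers_iff]
      refine ⟨Multiplicative.toAdd (expo i x), ?_⟩
      apply Multiplicative.toAdd.injective
      rw [toAdd_zpow, toAdd_pow, toAdd_ofAdd]
      simp
      ring
    have h4 := h3 hxB
    rw [Subgroup.mem_comap, Subgroup.mem_zpowers_iff] at h4
    obtain ⟨k, hk⟩ := h4
    rw [← hk, toAdd_zpow, toAdd_ofAdd]
    exact ⟨k, by simp [mul_comm]⟩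
  · intro f
    have hker : N₀ ≤ f.ker := by
      have hBf : B ≤ f.ker := by
        rw [hB, Subgroup.closure_le]
        rintro y ⟨x, rfl⟩
        rw [SetLike.mem_coe, MonoidHom.mem_ker, map_pow]
        apply Multiplicative.toAdd.injective
        rw [toAdd_pow, toAdd_one]
        have hNe : N ≤ e := (le_max_left _ _).trans he
        obtain ⟨k, hk⟩ := pow_dvd_pow p hNe
        rw [hk, mul_comm, mul_smul]
        have : ∀ z : ZMod (p ^ N), (p ^ N) • z = 0 := by
          intro z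
          rw [nsmul_eq_mul, ZMod.natCast_self, zero_mul]
        rw [this, smul_zero]
      exact fun x hx => hBf ((hmem x).1 hx).1
    exact ⟨QuotientGroup.lift N₀ f hker, fun x => rfl⟩

end Pool.Agent.Helper825.PA
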