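import Mathlib

set_option autoImplicit false

namespace Pool.Agent.Helper825.PA

open SemidirectProduct

variable {P : Type} [Group P]

/-- functions on the cosets of `Z` with values in a cyclic group, extended by `P` -/
abbrev GG (Z : Subgroup P) (l : ℕ) : Type :=
  ((P ⧸ Z) → Multiplicative (ZMod l)) ⋊[mulAutArrow] P

variable {Z : Subgroup P} {l : ℕ}

theorem act_apply (x : P) (w : (P ⧸ Z) → Multiplicative (ZMod l)) (b : P ⧸ Z) :
    (mulAutArrow x w) b = w (x⁻¹ • b) := rfl

theorem act_triv (hZ : Z ≤ Subgroup.center P) {z : P} (hz : z ∈ Z)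
    (w : (P ⧸ Z) → Multiplicative (ZMod l)) : mulAutArrow z w = w := by
  funext b
  rw [act_apply]
  refine congrArg w ?_
  obtain ⟨x, rfl⟩ := QuotientGroup.mk_surjective b
  change ((z⁻¹ * x : P) : P ⧸ Z) = x
  rw [QuotientGroup.eq]
  have h1 : z * x = x * z := ((Subgroup.mem_center_iff.1 (hZ hz)) x).symm
  have h2 : (z⁻¹ * x)⁻¹ * x = z := by
    rw [mul_inv_rev, inv_inv, mul_assoc, h1, inv_mul_cancel_left]
  rw [h2]
  exact hz

theorem inr_comm (hZ : Z ≤ Subgroup.center P) {z : P} (hz : z ∈ Z) (g : GG Z l) :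
    (inr z : GG Z l) * g = g * inr z := by
  apply SemidirectProduct.ext
  · rw [mul_left, mul_left, left_inr, right_inr, act_triv hZ hz, map_one, one_mul, mul_one]
  · rw [mul_right, mul_right, right_inr]
    exact ((Subgroup.mem_center_iff.1 (hZ hz)) g.right).symm

/-- the automorphism attached to a homomorphism to `Z` -/
def mkAut (hZ : Z ≤ Subgroup.center P) (l : ℕ) (f : P →* P) (hf : ∀ x, f x ∈ Z)
    (hfZ : ∀ z ∈ Z, f z = 1) : MulAut (GG Z l) where
  toFun := fun g => g * inr (f g.right)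
  invFun := fun g => g * inr ((f g.right)⁻¹)
  left_inv := fun g => by
    change g * inr (f g.right) * inr ((f (g * inr (f g.right)).right)⁻¹) = g
    rw [mul_right, right_inr, map_mul f, hfZ _ (hf _), mul_one, mul_assoc, ← map_mul,
      mul_inv_cancel, map_one, mul_one]
  right_inv := fun g => by
    change g * inr ((f g.right)⁻¹) * inr (f (g * inr ((f g.right)⁻¹)).right) = g
    rw [mul_right, right_inr, map_mul f, map_inv f, hfZ _ (hf _), inv_one, mul_one, mul_assoc,
      ← map_mul, inv_mul_cancel, map_one, mul_one]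
  map_mul' := fun g h => by
    change g * h * inr (f (g * h).right) = g * inr (f g.right) * (h * inr (f h.right))
    rw [mul_right, map_mul, map_mul]
    have := inr_comm (l := l) hZ (hf g.right) h
    calc g * h * (inr (f g.right) * inr (f h.right))
        = g * (h * inr (f g.right)) * inr (f h.right) := by group
      _ = g * (inr (f g.right) * h) * inr (f h.right) := by rw [this]
      _ = _ := by group

theorem mkAut_apply (hZ : Z ≤ Subgroup.center P) (l : ℕ) (f : P →* P) (hf : ∀ x, f x ∈ Z)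
    (hfZ : ∀ z ∈ Z, f z = 1) (g : GG Z l) : mkAut hZ l f hf hfZ g = g * inr (f g.right) := rfl

theorem inr_mem_zpowers (hZ : Z ≤ Subgroup.center P) {p : ℕ} (hp : p.Prime) (hl : l.Prime)
    (hlp : l ≠ p) (hP : ∀ x : P, ∃ k, x ^ p ^ k = 1) (g : GG Z l) {y : P} (hy : y ∈ Z)
    (hyg : y ∈ Subgroup.zpowers g.right) : (inr y : GG Z l) ∈ Subgroup.zpowers g := by
  obtain ⟨j, hj⟩ := Subgroup.mem_zpowers_iff.1 hyg
  obtain ⟨k, hk⟩ := hP y
  -- `g ^ j` has right component `y`
  have h1 : (g ^ j).right = y := by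
    have : (rightHom (g ^ j) : P) = (rightHom g) ^ j := map_zpow _ _ _
    change (rightHom (g ^ j) : P) = y
    rw [this, ← hj]
    rfl
  have h2 : g ^ j = inl (g ^ j).left * inr y := by
    rw [← h1, inl_left_mul_inr_right]
  have hwl : ∀ w : (P ⧸ Z) → Multiplicative (ZMod l), w ^ l = 1 := by
    intro w
    ext b
    rw [Pi.pow_apply, Pi.one_apply]
    apply Multiplicative.toAdd.injective
    rw [toAdd_pow, toAdd_one, nsmul_eq_mul, ZMod.natCast_self, zero_mul]
  have h3 : (g ^ j) ^ l = inr (y ^ l) := by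
    rw [h2]
    have hc : Commute (inl (g ^ j).left : GG Z l) (inr y) := (inr_comm hZ hy _).symm
    rw [hc.mul_pow, ← map_pow, ← map_pow, hwl, map_one, one_mul]
  have hcop : IsCoprime (l : ℤ) ((p ^ k : ℕ) : ℤ) := by
    rw [Nat.isCoprime_iff_coprime]
    exact Nat.Coprime.pow_right _ ((Nat.coprime_primes hl hp).2 hlp)
  obtain ⟨a, b, hab⟩ := hcop
  have h4 : inr y = ((g ^ j) ^ l) ^ a := by
    rw [h3, ← map_zpow]
    congr 1
    have h5 : y ^ ((p ^ k : ℕ) : ℤ) = 1 := by rw [zpow_natCast]; exact hk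
    calc y = y ^ (a * l + b * ((p ^ k : ℕ) : ℤ)) := by rw [hab, zpow_one]
      _ = (y ^ l) ^ a := by
        rw [zpow_add, mul_comm b, zpow_mul y _ b, h5, one_zpow, mul_one, mul_comm a, zpow_mul,
          zpow_natCast]
  rw [h4]
  exact Subgroup.zpow_mem _ (Subgroup.pow_mem _ (Subgroup.zpow_mem _ (Subgroup.mem_zpowers g) _) _) _

theorem mkAut_power (hZ : Z ≤ Subgroup.center P) {p : ℕ} (hp : p.Prime) (hl : l.Prime)
    (hlp : l ≠ p) (hP : ∀ x : P, ∃ k, x ^ p ^ k = 1) (f : P →* P) (hf : ∀ x, f x ∈ Z)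
    (hfZ : ∀ z ∈ Z, f z = 1) (hfx : ∀ x, f x ∈ Subgroup.zpowers x) (H : Subgroup (GG Z l)) :
    H.map (mkAut hZ l f hf hfZ).toMonoidHom = H := by
  have key : ∀ g ∈ H, (inr (f g.right) : GG Z l) ∈ H := by
    intro g hg
    have := inr_mem_zpowers hZ hp hl hlp hP g (hf g.right) (hfx g.right)
    exact (Subgroup.zpowers_le.2 hg) this
  apply le_antisymm
  · rintro _ ⟨g, hg, rfl⟩
    exact H.mul_mem hg (key g hg)
  · intro g hg
    refine ⟨g * (inr (f g.right))⁻¹, H.mul_mem hg (H.inv_mem (key g hg)), ?_⟩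
    change g * (inr (f g.right))⁻¹ * inr (f (g * (inr (f g.right))⁻¹).right) = g
    rw [← map_inv, mul_right, right_inr, map_mul, map_inv, map_inv, hfZ _ (hf _), inv_one, mul_one,
      inv_mul_cancel_right]

theorem power_form (hZ : Z ≤ Subgroup.center P) (hl : l.Prime) (hne : Z ≠ ⊤) (Φ : MulAut (GG Z l))
    (hΦ : ∀ H : Subgroup (GG Z l), H.map Φ.toMonoidHom = H) :
    ∃ f : P →* P, (∀ x, f x ∈ Z) ∧ (∀ x, f x ∈ Subgroup.zpowers x) ∧
      ∀ g, Φ g = g * inr (f g.right) := by
  classical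
  have : Fact l.Prime := ⟨hl⟩
  have hmem : ∀ g, Φ g ∈ Subgroup.zpowers g := by
    intro g
    have h1 := hΦ (Subgroup.zpowers g)
    have h2 : Φ g ∈ (Subgroup.zpowers g).map Φ.toMonoidHom := ⟨g, Subgroup.mem_zpowers g, rfl⟩
    rw [h1] at h2
    exact h2
  have hmem' : ∀ g, g ∈ Subgroup.zpowers (Φ g) := by
    intro g
    have h1 := hΦ (Subgroup.zpowers g)
    rw [MonoidHom.map_zpowers] at h1
    have h2 : g ∈ Subgroup.zpowers g := Subgroup.mem_zpowers g
    rw [← h1] at h2
    exact h2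
  -- two different cosets
  obtain ⟨b₁, b₂, hb⟩ : ∃ b₁ b₂ : P ⧸ Z, b₁ ≠ b₂ := by
    obtain ⟨x, hx⟩ : ∃ x, x ∉ Z := by
      by_contra h
      push Not at h
      exact hne (eq_top_iff.2 fun x _ => h x)
    refine ⟨((1 : P) : P ⧸ Z), (x : P ⧸ Z), ?_⟩
    intro h
    rw [QuotientGroup.eq] at h
    apply hx
    simpa using h
  -- image of elements of the base group
  have hinl : ∀ w : (P ⧸ Z) → Multiplicative (ZMod l), ∃ k : ℤ, Φ (inl w) = inl (w ^ k) := by
    intro w
    obtain ⟨k, hk⟩ := Subgroup.mem_zpowers_iff.1 (hmem (inl w))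
    exact ⟨k, by rw [← hk, map_zpow]⟩
  have hinr : ∀ x : P, ∃ k : ℤ, Φ (inr x) = inr (x ^ k) := by
    intro x
    obtain ⟨k, hk⟩ := Subgroup.mem_zpowers_iff.1 (hmem (inr x))
    exact ⟨k, by rw [← hk, map_zpow]⟩
  have hinv : ∀ w : (P ⧸ Z) → Multiplicative (ZMod l), ∀ k : ℤ, Φ (inl w) = inl (w ^ k) →
      ∀ x : P, mulAutArrow x (w⁻¹ * w ^ k) = w⁻¹ * w ^ k := by
    intro w k hk x
    obtain ⟨j, hj⟩ := hinr x
    set d := w⁻¹ * w ^ k with hd
    have h1 : w ^ k = w * d := by rw [hd]; group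
    obtain ⟨m, hm⟩ := Subgroup.mem_zpowers_iff.1 (hmem (inl w * inr x * (inl w)⁻¹))
    rw [map_mul, map_mul, map_inv, hk, hj, h1, conj_zpow, ← map_zpow inr, map_mul] at hm
    have h2 : (inl d : GG Z l) * inr (x ^ j) * (inl d)⁻¹ = inr (x ^ m) := by
      have h3 : (inl w : GG Z l)⁻¹ * (inl w * inr (x ^ m) * (inl w)⁻¹) * inl w
          = (inl w)⁻¹ * (inl w * inl d * inr (x ^ j) * (inl w * inl d)⁻¹) * inl w := by rw [hm]
      have h4 : (inl w : GG Z l)⁻¹ * (inl w * inr (x ^ m) * (inl w)⁻¹) * inl w = inr (x ^ m) := by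
        group
      rw [h4] at h3
      rw [h3]
      group
    have h5 : x ^ j = x ^ m := by
      have := congrArg rightHom h2
      rw [map_mul, map_mul, map_inv, rightHom_inl, rightHom_inr, rightHom_inr, one_mul, inv_one,
        mul_one] at this
      exact this
    have h6 : Commute (inl d : GG Z l) (inr (x ^ j)) := by
      rw [← h5] at h2
      exact mul_inv_eq_iff_eq_mul.1 h2
    have h7 : Commute (inl d : GG Z l) (inr x) := by
      obtain ⟨n, hn⟩ := Subgroup.mem_zpowers_iff.1 (hmem' (inr x))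
      rw [hj] at hn
      rw [← hn]
      exact h6.zpow_right n
    have h8 : (inl (mulAutArrow x d) : GG Z l) = inl d := by
      rw [inl_aut]
      have : (inr x : GG Z l) * inl d = inl d * inr x := h7.eq.symm
      rw [this, mul_assoc, ← map_mul, mul_inv_cancel, map_one, mul_one]
    exact inl_injective h8
  have hconst : ∀ d : (P ⧸ Z) → Multiplicative (ZMod l), (∀ x : P, mulAutArrow x d = d) →
      ∀ b b' : P ⧸ Z, d b = d b' := by
    intro d hd b b'
    obtain ⟨x, rfl⟩ := QuotientGroup.mk_surjective b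
    obtain ⟨y, rfl⟩ := QuotientGroup.mk_surjective b'
    have h1 := congrFun (hd (x * y⁻¹)) (x : P ⧸ Z)
    rw [act_apply] at h1
    rw [← h1]
    congr 1
    change (((x * y⁻¹)⁻¹ * x : P) : P ⧸ Z) = _
    congr 1
    group
  -- non-constant functions are fixed
  have hfix1 : ∀ w : (P ⧸ Z) → Multiplicative (ZMod l), (∃ b b', w b ≠ w b') →
      Φ (inl w) = inl w := by
    rintro w ⟨b, b', hbb⟩
    obtain ⟨k, hk⟩ := hinl w
    have h1 := hconst _ (hinv w k hk) b b'
    have h2 : (w b / w b') ^ (k - 1) = 1 := by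
      simp only [Pi.mul_apply, Pi.inv_apply, Pi.pow_apply] at h1
      rw [div_zpow, zpow_sub_one, zpow_sub_one, mul_comm (w b ^ k), h1, mul_comm (w b')⁻¹]
      simp
    have h3 : ((k - 1 : ℤ) : ZMod l) = 0 := by
      have h4 := congrArg Multiplicative.toAdd h2
      rw [toAdd_zpow, toAdd_one, zsmul_eq_mul] at h4
      rcases mul_eq_zero.1 h4 with h5 | h5
      · exact h5
      · exfalso
        apply hbb
        rw [toAdd_div, sub_eq_zero] at h5
        exact Multiplicative.toAdd.injective h5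
    rw [hk]
    congr 1
    ext c
    rw [Pi.pow_apply]
    apply Multiplicative.toAdd.injective
    rw [toAdd_zpow, zsmul_eq_mul]
    have h6 : ((k : ℤ) : ZMod l) = 1 := by
      push_cast at h3
      linear_combination h3
    rw [h6, one_mul]
  have hfix : ∀ w : (P ⧸ Z) → Multiplicative (ZMod l), Φ (inl w) = inl w := by
    intro w
    by_cases h : ∃ b b', w b ≠ w b'
    · exact hfix1 w h
    · push Not at h
      set w₁ : (P ⧸ Z) → Multiplicative (ZMod l) := Pi.mulSingle b₁ (Multiplicative.ofAdd 1)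
        with hw₁
      have hne1 : (Multiplicative.ofAdd (1 : ZMod l)) ≠ 1 := by
        intro h
        have := congrArg Multiplicative.toAdd h
        simp at this
      have h1 : w₁ b₁ ≠ w₁ b₂ := by
        rw [hw₁, Pi.mulSingle_eq_same, Pi.mulSingle_eq_of_ne hb.symm]
        exact hne1
      have h2 := hfix1 w₁ ⟨b₁, b₂, h1⟩
      have h3 := hfix1 (w₁⁻¹ * w) ⟨b₁, b₂, by
        rw [Pi.mul_apply, Pi.mul_apply, h b₁ b₂, Pi.inv_apply, Pi.inv_apply]
        intro h4
        exact h1 (inv_injective (mul_right_cancel h4))⟩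
      have h4 : w = w₁ * (w₁⁻¹ * w) := by group
      rw [h4, map_mul inl, map_mul Φ, h2, h3]
  -- the homomorphism
  have hright : ∀ x : P, Φ (inr x) = inr (Φ (inr x)).right := by
    intro x
    obtain ⟨k, hk⟩ := hinr x
    rw [hk, right_inr]
  have hact : ∀ x : P, x⁻¹ * (Φ (inr x)).right ∈ Z := by
    intro x
    set y := (Φ (inr x)).right with hy
    set w : (P ⧸ Z) → Multiplicative (ZMod l) :=
      Pi.mulSingle ((1 : P) : P ⧸ Z) (Multiplicative.ofAdd 1) with hw
    have h1 : (inl (mulAutArrow x w) : GG Z l) = inl (mulAutArrow y w) := by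
      have e1 : Φ (inr x) = inr y := hright x
      have e2 : Φ (inr x⁻¹) = inr y⁻¹ := by
        rw [map_inv inr, map_inv Φ, e1, map_inv]
      calc (inl (mulAutArrow x w) : GG Z l) = Φ (inl (mulAutArrow x w)) := (hfix _).symm
        _ = Φ (inr x * inl w * inr x⁻¹) := by rw [inl_aut x]
        _ = inr y * inl w * inr y⁻¹ := by rw [map_mul, map_mul, e1, e2, hfix]
        _ = inl (mulAutArrow y w) := (inl_aut y w).symm
    have h2 := congrFun (inl_injective h1) (x : P ⧸ Z)
    rw [act_apply, act_apply] at h2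
    have h3 : x⁻¹ • (x : P ⧸ Z) = ((1 : P) : P ⧸ Z) := by
      change ((x⁻¹ * x : P) : P ⧸ Z) = _
      rw [inv_mul_cancel]
    rw [h3, hw, Pi.mulSingle_eq_same] at h2
    by_contra hcon
    have h4 : y⁻¹ • (x : P ⧸ Z) ≠ ((1 : P) : P ⧸ Z) := by
      intro h5
      apply hcon
      change ((y⁻¹ * x : P) : P ⧸ Z) = _ at h5
      rw [QuotientGroup.eq] at h5
      simpa using h5
    rw [Pi.mulSingle_eq_of_ne h4] at h2
    have := congrArg Multiplicative.toAdd h2
    simp at this
  let f : P →* P :=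
    { toFun := fun x => x⁻¹ * (Φ (inr x)).right
      map_one' := by simp
      map_mul' := fun x y => by
        have h1 : (Φ (inr (x * y))).right = (Φ (inr x)).right * (Φ (inr y)).right := by
          rw [map_mul, map_mul, mul_right]
        rw [h1]
        have h2 := (Subgroup.mem_center_iff.1 (hZ (hact x))) y⁻¹
        calc (x * y)⁻¹ * ((Φ (inr x)).right * (Φ (inr y)).right)
            = (y⁻¹ * (x⁻¹ * (Φ (inr x)).right)) * (Φ (inr y)).right := by group
          _ = _ := by rw [h2]; group }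
  refine ⟨f, hact, ?_, ?_⟩
  · intro x
    obtain ⟨k, hk⟩ := hinr x
    change x⁻¹ * (Φ (inr x)).right ∈ _
    rw [hk, right_inr]
    exact Subgroup.mul_mem _ (Subgroup.inv_mem _ (Subgroup.mem_zpowers x))
      (Subgroup.zpow_mem _ (Subgroup.mem_zpowers x) _)
  · intro g
    change Φ g = g * inr (g.right⁻¹ * (Φ (inr g.right)).right)
    have h1 : inl g.left * inr g.right = g := inl_left_mul_inr_right g
    have h3 : Φ g = Φ (inl g.left * inr g.right) := by rw [h1]
    have h2 : Φ g = inl g.left * inr (Φ (inr g.right)).right := by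
      rw [h3, map_mul, hfix, ← hright g.right]
    have h4 : (inr (g.right⁻¹ * (Φ (inr g.right)).right) : GG Z l)
        = (inr g.right)⁻¹ * inr (Φ (inr g.right)).right := by
      rw [map_mul inr, map_inv inr]
    rw [h2, h4]
    calc (inl g.left * inr (Φ (inr g.right)).right : GG Z l)
        = (inl g.left * inr g.right) * ((inr g.right)⁻¹ * inr (Φ (inr g.right)).right) := by group
      _ = _ := by rw [h1]

end Pool.Agent.Helper825.PA
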