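import Mathlib
import Pool.Agent.Helper825.PA8
import Pool.Agent.Helper825.PA9

set_option autoImplicit false

namespace Pool.Agent.Helper825.PA

open SemidirectProduct

/-- multiplication by `p ^ (N - a)` from `ZMod (p ^ a)` to `ZMod (p ^ N)` -/
def eps (p N a : ℕ) (y : ZMod (p ^ a)) : ZMod (p ^ N) := (y.val : ZMod (p ^ N)) * (p : ZMod (p ^ N)) ^ (N - a)

theorem eps_int {p N a : ℕ} (hp : p.Prime) (h : a ≤ N) (j : ℤ) :
    eps p N a (j : ZMod (p ^ a)) = (j : ZMod (p ^ N)) * (p : ZMod (p ^ N)) ^ (N - a) := by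
  have : NeZero (p ^ a) := ⟨(pow_pos hp.pos a).ne'⟩
  unfold eps
  have h1 : (((j : ZMod (p ^ a)).val : ℤ)) = j % ((p ^ a : ℕ) : ℤ) := ZMod.val_intCast j
  have h2 : ((((j : ZMod (p ^ a)).val : ℕ)) : ZMod (p ^ N))
      = ((j % ((p ^ a : ℕ) : ℤ) : ℤ) : ZMod (p ^ N)) := by
    rw [← h1, Int.cast_natCast]
  have h3 : (((p ^ a : ℕ) : ℤ) : ZMod (p ^ N)) * (p : ZMod (p ^ N)) ^ (N - a) = 0 := by
    push_cast
    rw [← pow_add, Nat.add_sub_cancel' h, ← Nat.cast_pow, ZMod.natCast_self]
  have h4 : (j : ZMod (p ^ N)) = (((p ^ a : ℕ) : ℤ) : ZMod (p ^ N)) * ((j / ((p ^ a : ℕ) : ℤ) : ℤ) : ZMod (p ^ N))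
      + ((j % ((p ^ a : ℕ) : ℤ) : ℤ) : ZMod (p ^ N)) := by
    conv_lhs => rw [← Int.mul_ediv_add_emod j ((p ^ a : ℕ) : ℤ)]
    push_cast
    ring
  rw [h2, h4, add_mul, mul_right_comm, h3, zero_mul, zero_add]

theorem eps_add {p N a : ℕ} (hp : p.Prime) (h : a ≤ N) (y z : ZMod (p ^ a)) :
    eps p N a (y + z) = eps p N a y + eps p N a z := by
  have : NeZero (p ^ a) := ⟨(pow_pos hp.pos a).ne'⟩
  have h1 : y + z = (((y.val : ℤ) + (z.val : ℤ) : ℤ) : ZMod (p ^ a)) := by
    push_cast
    rw [ZMod.natCast_zmod_val, ZMod.natCast_zmod_val]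
  rw [h1, eps_int hp h]
  unfold eps
  push_cast
  ring

theorem eps_inj {p N a : ℕ} (hp : p.Prime) (h : a ≤ N) (y : ZMod (p ^ a)) (hy : eps p N a y = 0) :
    y = 0 := by
  have : NeZero (p ^ a) := ⟨(pow_pos hp.pos a).ne'⟩
  unfold eps at hy
  rw [← Nat.cast_pow, ← Nat.cast_mul, ZMod.natCast_eq_zero_iff] at hy
  have h1 : p ^ N = p ^ a * p ^ (N - a) := by rw [← pow_add, Nat.add_sub_cancel' h]
  rw [h1] at hy
  have h2 := Nat.dvd_of_mul_dvd_mul_right (pow_pos hp.pos _) hy
  rw [← ZMod.natCast_eq_zero_iff, ZMod.natCast_zmod_val] at h2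
  exact h2

theorem main_nonempty (p : ℕ) (hp : p.Prime) {ι : Type} [Fintype ι] (a : ι → ℕ)
    (i₀ : ι) (hi₀ : ∀ i, a i ≤ a i₀) :
    ∃ (G : Type) (_ : Group G) (f : ((i : ι) → Multiplicative (ZMod (p ^ a i))) →* MulAut G),
      Function.Injective f ∧
        ∀ φ : MulAut G, (φ ∈ f.range ↔ ∀ H : Subgroup G, H.map φ.toMonoidHom = H) := by
  classical
  obtain ⟨N, hN⟩ : ∃ N, N = a i₀ := ⟨_, rfl⟩
  have haN : ∀ i, a i ≤ N := fun i => by rw [hN]; exact hi₀ i
  have : NeZero (p ^ N) := ⟨(pow_pos hp.pos N).ne'⟩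
  let c : ι → ZMod (p ^ N) := fun i => (p : ZMod (p ^ N)) ^ (N - a i)
  have hc₀ : c i₀ = 1 := by
    change (p : ZMod (p ^ N)) ^ (N - a i₀) = 1
    rw [hN, Nat.sub_self, pow_zero]
  obtain ⟨e, P, _, π, ζ, hNe, he1, hπ, hζ, hζc, hpow, hexp, hlift⟩ := exists_P hp c i₀ hc₀
  -- the center
  set Z : Subgroup P := ζ.range with hZdef
  have hZ : Z ≤ Subgroup.center P := by
    rintro _ ⟨x, rfl⟩
    rw [Subgroup.mem_center_iff]
    intro g
    exact (hζc x g).symm
  -- another prime
  obtain ⟨l, hl, hlp⟩ : ∃ l : ℕ, l.Prime ∧ l ≠ p := by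
    by_cases h2 : p = 2
    · exact ⟨3, Nat.prime_three, by omega⟩
    · exact ⟨2, Nat.prime_two, fun h => h2 h.symm⟩
  have hexpo : ∀ i : ι, ∀ j : ℤ, Multiplicative.toAdd (expo i ((FreeGroup.of i) ^ j)) = j := by
    intro i j
    rw [map_zpow, toAdd_zpow]
    simp [expo]
  have hne : Z ≠ ⊤ := by
    intro h
    have h1 : π (FreeGroup.of i₀) ∈ Z := by rw [h]; trivial
    obtain ⟨x, hx⟩ := h1
    have h2 := hexp _ _ hx.symm i₀
    have h3 := hexpo i₀ 1
    rw [zpow_one] at h3
    rw [h3] at h2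
    have h4 : p ^ e ∣ 1 := by exact_mod_cast h2
    have h5 := Nat.dvd_one.1 h4
    have h6 : 1 < p ^ e := Nat.one_lt_pow (by omega) hp.one_lt
    omega
  have hcard : ∀ m : Multiplicative (ZMod (p ^ N)), m ^ p ^ N = 1 := by
    intro m
    apply Multiplicative.toAdd.injective
    rw [toAdd_pow, toAdd_one, nsmul_eq_mul, ZMod.natCast_self, zero_mul]
  have hP : ∀ x : P, ∃ k, x ^ p ^ k = 1 := by
    intro x
    obtain ⟨y, rfl⟩ := hπ x
    refine ⟨e + N, ?_⟩
    rw [pow_add, pow_mul, hpow, ← map_pow, hcard, map_one]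
  -- homomorphisms to the cyclic group kill `Z`
  have hζpow : ∀ m : Multiplicative (ZMod (p ^ N)),
      ζ m = (π (FreeGroup.of i₀) ^ (p ^ e)) ^ (Multiplicative.toAdd m).val := by
    intro m
    rw [hpow, hF_of, hc₀, ← map_pow]
    congr 1
    apply Multiplicative.toAdd.injective
    rw [toAdd_pow, toAdd_ofAdd, nsmul_eq_mul, ZMod.natCast_zmod_val, mul_one]
  have hkill : ∀ g : P →* Multiplicative (ZMod (p ^ N)), ∀ m, g (ζ m) = 1 := by
    intro g m
    rw [hζpow, map_pow, map_pow]
    obtain ⟨k, hk⟩ := pow_dvd_pow p hNe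
    rw [hk, pow_mul, hcard, one_pow, one_pow]
  -- homomorphisms attached to elements
  let cA : ((i : ι) → Multiplicative (ZMod (p ^ a i))) → (FreeGroup ι →* Multiplicative (ZMod (p ^ N))) :=
    fun α => FreeGroup.lift (fun i => Multiplicative.ofAdd (eps p N (a i) (Multiplicative.toAdd (α i))))
  have hcA : ∀ α i, cA α (FreeGroup.of i) =
      Multiplicative.ofAdd (eps p N (a i) (Multiplicative.toAdd (α i))) := by
    intro α i
    simp [cA]
  choose c' hc' using fun α => hlift (cA α)
  have hext : ∀ g g' : P →* Multiplicative (ZMod (p ^ N)),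
      (∀ i, g (π (FreeGroup.of i)) = g' (π (FreeGroup.of i))) → g = g' := by
    intro g g' h
    have h1 : g.comp π = g'.comp π := FreeGroup.ext_hom _ _ h
    ext1 x
    obtain ⟨y, rfl⟩ := hπ x
    exact DFunLike.congr_fun h1 y
  have hc'of : ∀ α i, c' α (π (FreeGroup.of i)) =
      Multiplicative.ofAdd (eps p N (a i) (Multiplicative.toAdd (α i))) := by
    intro α i
    rw [hc', hcA]
  have hc'mul : ∀ α β, c' (α * β) = c' α * c' β := by
    intro α β
    apply hext
    intro i
    rw [MonoidHom.mul_apply, hc'of, hc'of, hc'of, ← ofAdd_add, ← eps_add hp (haN i)]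
    rfl
  have hmemZ : ∀ α x, (ζ.comp (c' α)) x ∈ Z := fun α x => ⟨c' α x, rfl⟩
  have hkZ : ∀ α, ∀ z ∈ Z, (ζ.comp (c' α)) z = 1 := by
    rintro α _ ⟨m, rfl⟩
    rw [MonoidHom.comp_apply, hkill, map_one]
  let Ψ : ((i : ι) → Multiplicative (ZMod (p ^ a i))) →* MulAut (GG Z l) :=
    { toFun := fun α => mkAut hZ l (ζ.comp (c' α)) (hmemZ α) (hkZ α)
      map_one' := by
        have h1 : c' 1 = 1 := by
          have := hc'mul 1 1
          rw [mul_one] at this
          exact (mul_eq_left.1 this.symm)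
        ext1 g
        rw [mkAut_apply, h1]
        simp
      map_mul' := fun α β => by
        ext1 g
        rw [MulAut.mul_apply, mkAut_apply, mkAut_apply, mkAut_apply]
        have h1 : (g * inr ((ζ.comp (c' β)) g.right) : GG Z l).right
            = g.right * (ζ.comp (c' β)) g.right := by
          rw [mul_right, right_inr]
        rw [h1, map_mul (ζ.comp (c' α)), hkZ α _ (hmemZ β _), mul_one, mul_assoc, ← map_mul inr]
        congr 2
        rw [MonoidHom.comp_apply, MonoidHom.comp_apply, MonoidHom.comp_apply, hc'mul,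
          MonoidHom.mul_apply, map_mul, hζc] }
  have hΨ : ∀ α, Ψ α = mkAut hZ l (ζ.comp (c' α)) (hmemZ α) (hkZ α) := fun α => rfl
  refine ⟨GG Z l, inferInstance, Ψ, ?_, ?_⟩
  · rw [injective_iff_map_eq_one]
    intro α hα
    funext i
    have h1 := DFunLike.congr_fun hα (inr (π (FreeGroup.of i)) : GG Z l)
    rw [hΨ, mkAut_apply, MulAut.one_apply, mul_eq_left, right_inr] at h1
    have h2 : (ζ.comp (c' α)) (π (FreeGroup.of i)) = 1 := by
      apply inr_injective (N := (P ⧸ Z) → Multiplicative (ZMod l)) (φ := mulAutArrow)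
      rw [h1, map_one]
    rw [MonoidHom.comp_apply, hc'of] at h2
    have h3 : Multiplicative.ofAdd (eps p N (a i) (Multiplicative.toAdd (α i))) = 1 := by
      apply hζ
      rw [h2, map_one]
    have h4 := eps_inj hp (haN i) _ (Multiplicative.ofAdd.injective h3)
    apply Multiplicative.toAdd.injective
    exact h4
  · intro Φ
    constructor
    · rintro ⟨α, rfl⟩ H
      rw [hΨ]
      apply mkAut_power hZ hp hl hlp hP
      intro x
      obtain ⟨y, rfl⟩ := hπ x
      rw [MonoidHom.comp_apply, hc']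
      -- divisibility
      have hsum : ∀ y, Multiplicative.toAdd (cA α y)
          = ∑ i, ((Multiplicative.toAdd (α i)).val : ZMod (p ^ N)) *
            (Multiplicative.toAdd (wt p N c y)) i := by
        intro y
        let D : Multiplicative (ι → ZMod (p ^ N)) →* Multiplicative (ZMod (p ^ N)) :=
          { toFun := fun w => Multiplicative.ofAdd
              (∑ i, ((Multiplicative.toAdd (α i)).val : ZMod (p ^ N)) * (Multiplicative.toAdd w) i)
            map_one' := by simp
            map_mul' := fun w w' => by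
              rw [← ofAdd_add, ← Finset.sum_add_distrib]
              congr 1
              apply Finset.sum_congr rfl
              intro i _
              rw [toAdd_mul, Pi.add_apply, mul_add] }
        have hD : cA α = D.comp (wt p N c) := by
          apply FreeGroup.ext_hom
          intro i
          rw [hcA, MonoidHom.comp_apply]
          change _ = Multiplicative.ofAdd
              (∑ j, ((Multiplicative.toAdd (α j)).val : ZMod (p ^ N)) *
                (Multiplicative.toAdd (wt p N c (FreeGroup.of i))) j)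
          congr 1
          have hw : Multiplicative.toAdd (wt p N c (FreeGroup.of i)) = Pi.single i (c i) := by
            simp [wt]
          rw [hw, Finset.sum_eq_single i]
          · rw [Pi.single_eq_same]
            rfl
          · intro j _ hj
            rw [Pi.single_eq_of_ne hj, mul_zero]
          · intro h
            exact absurd (Finset.mem_univ i) h
        rw [hD]
        rfl
      have hdvd : hF p N c y ∣ Multiplicative.toAdd (cA α y) := by
        rw [hsum]
        apply Finset.dvd_sum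
        intro i _
        exact dvd_mul_of_dvd_right (Hf_dvd hp _ i) _
      obtain ⟨t, ht⟩ := hdvd
      have h5 : ζ (cA α y) = (π y ^ (p ^ e)) ^ t.val := by
        rw [hpow, ← map_pow]
        congr 1
        apply Multiplicative.toAdd.injective
        rw [toAdd_pow, toAdd_ofAdd, nsmul_eq_mul, ZMod.natCast_zmod_val, ht, mul_comm]
      rw [h5]
      exact Subgroup.pow_mem _ (Subgroup.pow_mem _ (Subgroup.mem_zpowers _) _) _
    · intro hΦ
      obtain ⟨f, hfZ, hfx, hΦf⟩ := power_form hZ hl hne Φ hΦ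
      have hj : ∀ i, ∃ j : ℤ, f (π (FreeGroup.of i)) = ζ (Multiplicative.ofAdd ((j : ZMod (p ^ N)) * c i)) := by
        intro i
        obtain ⟨j, hj⟩ := Subgroup.mem_zpowers_iff.1 (hfx (π (FreeGroup.of i)))
        obtain ⟨m, hm⟩ := hfZ (π (FreeGroup.of i))
        rw [← map_zpow, ← hm] at hj
        have h1 := hexp _ _ hj i
        rw [hexpo] at h1
        obtain ⟨j', hj'⟩ := h1
        refine ⟨j', ?_⟩
        rw [← hm, ← hj, map_zpow, hj', zpow_mul, zpow_natCast, hpow, hF_of, ← map_zpow]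
        congr 1
        apply Multiplicative.toAdd.injective
        rw [toAdd_zpow, toAdd_ofAdd, toAdd_ofAdd, zsmul_eq_mul]
      choose j hj using hj
      refine ⟨fun i => Multiplicative.ofAdd ((j i : ZMod (p ^ a i))), ?_⟩
      set α : (i : ι) → Multiplicative (ZMod (p ^ a i)) :=
        fun i => Multiplicative.ofAdd ((j i : ZMod (p ^ a i))) with hα
      have hfα : f.comp π = (ζ.comp (c' α)).comp π := by
        apply FreeGroup.ext_hom
        intro i
        rw [MonoidHom.comp_apply, MonoidHom.comp_apply, MonoidHom.comp_apply, hc'of, hj]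
        congr 2
        rw [hα, toAdd_ofAdd, eps_int hp (haN i)]
      ext1 g
      rw [hΨ, mkAut_apply, hΦf]
      congr 2
      obtain ⟨y, hy⟩ := hπ g.right
      rw [← hy]
      exact (DFunLike.congr_fun hfα y).symm

end Pool.Agent.Helper825.PA
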